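import Pool.Agent.T9h49.RK.Defs

/-!
# Fourier coefficients of formulas
-/

set_option autoImplicit false

namespace Pool.Agent.T9h90.FT

open Pool.Agent.T9h49.RK

/-- the assignment which gives the values `x` to the first `n` variables and `false` to the
others -/
def extn (n : ℕ) (x : Fin n → Bool) (i : ℕ) : Bool := if h : i < n then x ⟨i, h⟩ else false

/-- the Fourier coefficient at `S` of the Boolean function (with values 0 and 1) which `A` defines
on the first `n` variables (the other variables are set to `false`) -/
noncomputable def fourier (n : ℕ) (A : PForm) (S : Finset (Fin n)) : ℝ :=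
  (∑ x : Fin n → Bool, if A.eval (extn n x) = true then
    ∏ i ∈ S, (if x i = true then (-1 : ℝ) else 1) else 0) / 2 ^ n

/-- the Fourier weight at the levels at least `t` -/
noncomputable def tailW (n : ℕ) (A : PForm) (t : ℝ) : ℝ :=
  ∑ S : Finset (Fin n), if t ≤ (S.card : ℝ) then fourier n A S ^ 2 else 0

/-- the admissible lines: the Fourier weight at the levels at least `t * n` is at most
`2 ^ (-(γ * n))`, or there is a set `H` of at most `t * n` variables such that the other ones among
the first `n` variables have together at most `K * n` occurrences -/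
def Adm (t : ℝ) (K : ℕ) (γ : ℝ) (n : ℕ) (A : PForm) : Prop :=
  tailW n A (t * n) ≤ 2 ^ (-(γ * n)) ∨
    ∃ H : Finset ℕ, (H.card : ℝ) ≤ t * n ∧ ∑ i ∈ Finset.range n \ H, A.occ i ≤ K * n

end Pool.Agent.T9h90.FT
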