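import Pool.Agent.T9h90.FT.Kill
import Pool.Agent.T9h90.FT.Defs
import Pool.Agent.T9h49.RK.Final

/-!
# The lower bound for refutations with small Fourier tails
-/

set_option autoImplicit false
set_option linter.unusedSectionVars false

namespace Pool.Agent.T9h90.FT

open Finset Classical

open Pool.Agent.T9h49.RK

section

variable {P : Type} [Fintype P]

theorem ext_eq (x : P → Bool) :
    T9h49.RK.ext x = extn (Fintype.card P) (fun i => x ((Fintype.equivFin P).symm i)) := by
  funext i
  unfold T9h49.RK.ext extn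
  by_cases h : i < Fintype.card P
  · have h1 : ∃ p : P, num p = i := ⟨(Fintype.equivFin P).symm ⟨i, h⟩, by simp [num]⟩
    rw [dif_pos h1, dif_pos h]
    congr 1
    refine num_inj ?_
    rw [h1.choose_spec]
    simp [num]
  · rw [dif_neg h, dif_neg]
    rintro ⟨p, rfl⟩
    exact h (Fintype.equivFin P p).isLt

theorem Wt_pull (A : PForm) (t : ℝ) :
    Wt t (bf (pull A : Fm P)) = tailW (Fintype.card P) A t := by
  have h1 : (bf (pull A : Fm P)) = fun x : P → Bool =>
      (fun x' : Fin (Fintype.card P) → Bool =>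
        if A.eval (extn (Fintype.card P) x') = true then (1 : ℝ) else 0)
        (fun i => x ((Fintype.equivFin P).symm i)) := by
    funext x
    simp only [bf, ev_pull, ext_eq]
  rw [h1, Wt_equiv (Fintype.equivFin P) (fun x' : Fin (Fintype.card P) → Bool =>
        if A.eval (extn (Fintype.card P) x') = true then (1 : ℝ) else 0)]
  unfold Wt tailW
  refine Finset.sum_congr rfl fun S _ => ?_
  have h2 : fc (fun x' : Fin (Fintype.card P) → Bool =>
      if A.eval (extn (Fintype.card P) x') = true then (1 : ℝ) else 0) S =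
      fourier (Fintype.card P) A S := by
    unfold fc fourier chi
    rw [Fintype.card_fin]
    congr 1
    refine Finset.sum_congr (univ_inst _ _) fun x _ => ?_
    simp only
    split
    · rw [one_mul]
      rfl
    · rw [zero_mul]
  rw [h2]

theorem card_pull (A : PForm) (H : Finset ℕ) :
    ∑ v ∈ univ \ univ.filter (fun v : P => num v ∈ H), (pull A : Fm P).oc v ≤
      ∑ i ∈ range (Fintype.card P) \ H, A.occ i := by
  have h1 : ∀ v : P, (pull A : Fm P).oc v = A.occ (num v) := fun v => oc_pull v A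
  rw [Finset.sum_congr rfl (fun v _ => h1 v)]
  have h2 : ∑ v ∈ univ \ univ.filter (fun v : P => num v ∈ H), A.occ (num v) =
      ∑ i ∈ (univ \ univ.filter (fun v : P => num v ∈ H)).image num, A.occ i := by
    rw [Finset.sum_image]
    intro v _ v' _ h
    exact num_inj h
  rw [h2]
  refine Finset.sum_le_sum_of_subset_of_nonneg ?_ (fun _ _ _ => Nat.zero_le _)
  intro i hi
  obtain ⟨v, hv, rfl⟩ := mem_image.mp hi
  simp only [mem_sdiff, mem_univ, true_and, mem_filter] at hv
  rw [mem_sdiff, mem_range]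
  exact ⟨(Fintype.equivFin P v).isLt, hv⟩

theorem card_H (H : Finset ℕ) : (univ.filter (fun v : P => num v ∈ H)).card ≤ H.card := by
  refine Finset.card_le_card_of_injOn num ?_ ?_
  · intro v hv
    exact (mem_filter.mp (Finset.mem_coe.mp hv)).2
  · intro v _ v' _ h
    exact num_inj h

end

theorem vars_bigOr (n : ℕ) : ∀ l : List PForm, l ≠ [] → (∀ A ∈ l, A.vars ⊆ range n) →
    (PForm.bigOr l).vars ⊆ range n
  | [], h, _ => absurd rfl h
  | [A], _, h => h A (by simp)
  | A :: B :: l, _, h => by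
      have ih := vars_bigOr n (B :: l) (by simp) (fun C hC => h C (List.mem_cons_of_mem _ hC))
      exact Finset.union_subset (h A (by simp)) ih

section

variable {N D : ℕ}

theorem vars_tse {q : ℕ} (f : Fin (N + 1) × Fin D → Fin (N + 1)) (hq : 0 < q) (hN : 1 ≤ N) :
    ∀ A ∈ tse f q, A.vars ⊆ range (Fintype.card (Ed N D × Fin q)) := by
  intro A hA
  obtain ⟨v, T, _, _, rfl⟩ := mem_tse.mp hA
  unfold cl
  refine vars_bigOr _ _ ?_ ?_
  · simp only [ne_eq, List.map_eq_nil_iff, Finset.toList_eq_nil]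
    exact (Uv_nonempty f hq hN v).ne_empty
  · intro B hB
    obtain ⟨p, _, rfl⟩ := List.mem_map.mp hB
    have h1 : num p < Fintype.card (Ed N D × Fin q) := (Fintype.equivFin _ p).isLt
    unfold lit
    split
    · simpa [PForm.vars] using h1
    · simpa [PForm.vars] using h1

theorem card_star (f : Fin (N + 1) × Fin D → Fin (N + 1)) (v : Fin (N + 1)) :
    (dl (Inc f) {v}).card ≤ D + 2 + indeg f v := by
  have h1 := card_Uv (q := 1) f v
  rw [one_mul, one_mul] at h1
  refine le_trans ?_ h1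
  refine Finset.card_le_card_of_injOn (fun e => (e, (0 : Fin 1))) ?_ ?_
  · intro e he
    have h2 := (mem_filter.mp (Finset.mem_coe.mp he)).2
    rw [Finset.mem_coe]
    simp only [Uv, mem_filter, mem_univ, true_and]
    rw [Finset.filter_singleton] at h2
    by_contra h3
    rw [if_neg h3] at h2
    simp at h2
  · intro e _ e' _ h
    exact congrArg Prod.fst h

end

theorem exp_graph {N D : ℕ} (hN : 3 ≤ N) (f : Fin (N + 1) × Fin D → Fin (N + 1))
    (hf : ∀ A : Finset (Fin (N + 1)), N + 1 < 2 * 2 * A.card → 2 * A.card ≤ N + 1 →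
      N + 1 ≤ outd f A) : Exp (Inc f) N where
  conn A h1 h2 := connected f A h1 h2
  med A h1 h2 := by
    rw [Fintype.card_fin] at h1 h2
    have h3 := (hf A (by omega) h2).trans (outd_le f A)
    omega
  four := by
    rw [Fintype.card_fin]
    omega

theorem indeg_le {N D q : ℕ} (hq : 0 < q) (f : Fin (N + 1) × Fin D → Fin (N + 1)) {C : ℝ}
    (hf : ∑ v, ((4 : ℝ) ^ q) ^ indeg f v ≤ C * ((N : ℝ) + 1)) (nI : ℕ) (hI : 4 * C ≤ nI)
    (hN : 4 * nI ≤ N) (v : Fin (N + 1)) : indeg f v ≤ N / 4 := by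
  by_contra hcon
  push Not at hcon
  set x := N / 4 + 1 with hx
  have h1 : (4 : ℝ) ^ x ≤ C * ((N : ℝ) + 1) := by
    refine le_trans ?_ hf
    refine le_trans ?_ (Finset.single_le_sum (f := fun v => ((4 : ℝ) ^ q) ^ indeg f v)
      (fun _ _ => by positivity) (mem_univ v))
    rw [← pow_mul]
    refine pow_le_pow_right₀ (by norm_num) ?_
    nlinarith
  have h2 : (N : ℝ) + 1 ≤ 4 * x := by
    have : N + 1 ≤ 4 * x := by omega
    exact_mod_cast this
  have h3 : 0 ≤ C ∨ C < 0 := le_or_gt 0 C
  have hx0 : (0 : ℝ) < x := by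
    have : 0 < x := by omega
    exact_mod_cast this
  rcases h3 with h3 | h3
  · have h4 : (4 : ℝ) ^ x ≤ 4 * C * x := by
      calc (4 : ℝ) ^ x ≤ C * ((N : ℝ) + 1) := h1
        _ ≤ C * (4 * x) := mul_le_mul_of_nonneg_left h2 h3
        _ = _ := by ring
    have h5 : (x : ℝ) < 2 ^ x := by exact_mod_cast Nat.lt_two_pow_self
    have h6 : 4 * C ≤ (x : ℝ) := by
      refine hI.trans ?_
      have : nI ≤ x := by omega
      exact_mod_cast this
    have h7 : (4 : ℝ) ^ x = 2 ^ x * 2 ^ x := by
      rw [← mul_pow]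
      norm_num
    rw [h7] at h4
    have h8 : 4 * C * (x : ℝ) ≤ x * x := mul_le_mul_of_nonneg_right h6 hx0.le
    nlinarith
  · have h4 : (4 : ℝ) ^ x ≤ 0 := by
      refine h1.trans ?_
      have : (0 : ℝ) ≤ (N : ℝ) + 1 := by positivity
      nlinarith
    have h5 : (0 : ℝ) < 4 ^ x := by positivity
    linarith

/-- regrouping the variables -/
def regroup (E : Type) {q a b : ℕ} (h : q = a * b) : E × Fin q ≃ (E × Fin a) × Fin b :=
  (Equiv.prodCongr (Equiv.refl E) ((finCongr h).trans finProdFinEquiv.symm)).trans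
    (Equiv.prodAssoc E (Fin a) (Fin b)).symm

theorem two_rpow_le {x y : ℝ} (h : y ≤ 0.69 * x) (hx : 0 ≤ x) :
    (2 : ℝ) ^ (-x) ≤ Real.exp (-y) := by
  rw [Real.rpow_def_of_pos (by norm_num)]
  refine Real.exp_le_exp.mpr ?_
  have h1 := Real.log_two_gt_d9
  nlinarith

theorem two_rpow_le' {x y : ℝ} (h : x ≤ y) (hx : 0 ≤ x) : (2 : ℝ) ^ x ≤ Real.exp y := by
  rw [Real.rpow_def_of_pos (by norm_num)]
  refine Real.exp_le_exp.mpr ?_
  have h1 := Real.log_two_lt_d9
  have h2 : 0 ≤ Real.log 2 := Real.log_nonneg (by norm_num)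
  nlinarith

/-- **Main theorem.** -/
theorem main : ∃ c : ℕ → ℝ, (∀ r, 0 < c r) ∧ ∀ (R K : ℕ) (γ : ℝ), 0 < γ → ∃ ε : ℝ, 0 < ε ∧
    ∀ m : ℕ, ∃ n : ℕ, m ≤ n ∧ ∃ F : List PForm, (∀ A ∈ F, A.IsClause ∧ A.vars ⊆ range n) ∧
    Unsat F ∧ ε * sizeL F ≤ n ∧
    ∀ r ≤ R, ∀ Φ : Set Rule, (∀ ρ ∈ Φ, ρ.Sound ∧ ρ.prem.length ≤ r) → ∀ π : List PForm,
      Refutes Φ F π →
      (∀ A ∈ π, tailW n A (c r * n) ≤ 2 ^ (-(γ * n)) ∨ ∃ H : Finset ℕ,
        (H.card : ℝ) ≤ c r * n ∧ ∑ i ∈ range n \ H, A.occ i ≤ K * n) →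
      (2 : ℝ) ^ (ε * n) ≤ π.length := by
  set a : ℕ → ℝ := fun r => 1320 * ((r : ℝ) + 1) with ha
  have ha0 : ∀ r, 0 ≤ a r := fun r => by rw [ha]; positivity
  set c : ℕ → ℝ := fun r => Real.exp (-(a r)) / 3 with hcdef
  have hc : ∀ r, 0 < c r := fun r => by rw [hcdef]; positivity
  refine ⟨c, hc, ?_⟩
  intro R K γ hγ
  have hh := fun r => heavy_tail K (hc r)
  choose q' hq' δ hδ C hC n0 hmain using hh
  obtain ⟨L, hL0, hLγ, hLδ⟩ : ∃ L : ℕ, 0 < L ∧ 5 / γ ≤ L ∧ ∀ r ≤ R, 4 / δ r ≤ L := by
    refine ⟨⌈5 / γ⌉₊ + ∑ r ∈ range (R + 1), ⌈4 / δ r⌉₊ + 1, by omega, ?_, ?_⟩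
    · push_cast
      have h1 := Nat.le_ceil (5 / γ)
      have h2 : (0 : ℝ) ≤ ∑ r ∈ range (R + 1), ((⌈4 / δ r⌉₊ : ℕ) : ℝ) :=
        Finset.sum_nonneg fun _ _ => Nat.cast_nonneg _
      linarith
    · intro r hr
      have h1 := Nat.le_ceil (4 / δ r)
      have h2 : ⌈4 / δ r⌉₊ ≤ ∑ r ∈ range (R + 1), ⌈4 / δ r⌉₊ :=
        Finset.single_le_sum (f := fun r => ⌈4 / δ r⌉₊) (fun _ _ => Nat.zero_le _)
          (mem_range.mpr (by omega))
      refine h1.trans ?_
      exact_mod_cast (by omega : ⌈4 / δ r⌉₊ ≤ ⌈5 / γ⌉₊ + ∑ r ∈ range (R + 1), ⌈4 / δ r⌉₊ + 1)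
  set P : ℕ := ∏ r ∈ range (R + 1), q' r with hP
  have hP0 : 0 < P := Finset.prod_pos fun r _ => hq' r
  set q : ℕ := P * L with hq
  have hq0 : 0 < q := Nat.mul_pos hP0 hL0
  obtain ⟨D, hD⟩ : ∃ D, D = 16 * 2 := ⟨_, rfl⟩
  obtain ⟨C4, hC4, hgraph⟩ := exists_graph 2 (B := (4 : ℝ) ^ q) (one_le_pow₀ (by norm_num))
  rw [← hD] at hgraph
  obtain ⟨nI, hnI⟩ := exists_nat_ge (4 * C4)
  set Y : ℝ := 3 * 4 ^ (q * (D + 2)) * C4 with hY
  have hY0 : 0 < Y := by positivity
  have hqr : (0 : ℝ) < q := by exact_mod_cast hq0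
  refine ⟨min (1 / Y) (1 / q), by positivity, fun m => ?_⟩
  set X : ℕ := ∑ r ∈ range (R + 1), (n0 r + ⌈C r⌉₊) with hX
  have hX1 : ∀ r ≤ R, n0 r + ⌈C r⌉₊ ≤ X := fun r hr =>
    Finset.single_le_sum (f := fun r => n0 r + ⌈C r⌉₊) (fun _ _ => Nat.zero_le _)
      (mem_range.mpr (by omega))
  obtain ⟨N, hN⟩ : ∃ N : ℕ, N = 2 * (m + X + 2 * nI + 2 * R + 68) := ⟨_, rfl⟩
  obtain ⟨f, hf1, hf2⟩ := hgraph N
  obtain ⟨M, hM⟩ : ∃ M : ℕ, M = Fintype.card (Ed N D) := ⟨_, rfl⟩
  have hEcard : M = 33 * (N + 1) := by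
    rw [hM, Fintype.card_sum, Fintype.card_prod, Fintype.card_fin, Fintype.card_fin, hD]
    ring
  have hMN : N + 1 ≤ M := by rw [hEcard]; omega
  have hMNr : (N : ℝ) + 1 ≤ M := by exact_mod_cast hMN
  obtain ⟨n, hn⟩ : ∃ n : ℕ, n = Fintype.card (Ed N D × Fin q) := ⟨_, rfl⟩
  have hnM : n = M * q := by rw [hn, Fintype.card_prod, Fintype.card_fin, hM]
  have hnMr : (n : ℝ) = M * q := by exact_mod_cast hnM
  have hMn : M ≤ n := by rw [hnM]; exact Nat.le_mul_of_pos_right M hq0
  refine ⟨n, by omega, tse f q, fun A hA => ⟨tse_clause f hq0 (by omega) A hA,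
    by rw [hn]; exact vars_tse f hq0 (by omega) A hA⟩, tse_unsat f hq0 (by omega)
    ⟨m + X + 2 * nI + 2 * R + 68, by omega⟩, ?_, ?_⟩
  · have h1 : (sizeL (tse f q) : ℝ) ≤ Y * ((N : ℝ) + 1) := by
      refine (tse_size_le f hq0 (by omega)).trans ?_
      rw [hY, mul_assoc _ C4]
      exact mul_le_mul_of_nonneg_left hf2 (by positivity)
    calc min (1 / Y) (1 / (q : ℝ)) * (sizeL (tse f q) : ℝ) ≤ 1 / Y * (Y * ((N : ℝ) + 1)) :=
          mul_le_mul (min_le_left _ _) h1 (Nat.cast_nonneg _) (by positivity)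
      _ = (N : ℝ) + 1 := by field_simp
      _ ≤ M := hMNr
      _ ≤ n := by exact_mod_cast hMn
  · intro r hr Φ hΦ π hπ hlines
    obtain ⟨d, hd⟩ : ∃ d : ℕ, d = N / (2 * (r + 1)) := ⟨_, rfl⟩
    have hd1 : 2 * ((r + 1) * d) ≤ N := by
      have := Nat.div_mul_le_self N (2 * (r + 1))
      rw [← hd] at this
      calc 2 * ((r + 1) * d) = d * (2 * (r + 1)) := by ring
        _ ≤ N := this
    have hd2 : N < 2 * ((r + 1) * d) + 2 * (r + 1) := by
      have := Nat.lt_div_mul_add (a := N) (b := 2 * (r + 1)) (by omega)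
      rw [← hd] at this
      calc N < d * (2 * (r + 1)) + 2 * (r + 1) := this
        _ = _ := by ring
    have hd3 : d ≤ N / 2 := by
      rw [hd]
      exact Nat.div_le_div_left (by omega) (by norm_num)
    have hlam : c r * (n : ℝ) ≤ Real.exp (-(a r)) * (q * M) := by
      rw [hnMr, hcdef]
      have h1 : (0 : ℝ) ≤ Real.exp (-(a r)) * (q * M) := by positivity
      calc Real.exp (-(a r)) / 3 * ((M : ℝ) * q) = Real.exp (-(a r)) * (q * M) / 3 := by ring
        _ ≤ _ := by linarith
    have hkill := kill (Inc f) N r d (exp_graph (by omega) f hf1) hd1 (by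
        intro v
        have h1 := card_star f v
        have h2 := indeg_le hq0 f hf2 nI hnI (by omega) v
        omega) hq0 (a r) (ha0 r) (by
        have h1 : (N : ℝ) < 2 * (((r : ℝ) + 1) * d) + 2 * (r + 1) := by exact_mod_cast hd2
        have h2 : (4 * R + 136 : ℝ) ≤ N := by
          have : 4 * R + 136 ≤ N := by omega
          exact_mod_cast this
        have h3 : (r : ℝ) ≤ R := by exact_mod_cast hr
        have h4 : (Fintype.card (Ed N D) : ℝ) = 33 * (N + 1) := by
          rw [← hM]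
          exact_mod_cast hEcard
        rw [h4, ha]
        simp only
        nlinarith) (by rw [← hM]; omega)
      (π.map pull) (semDer f hq0 (by omega) hΦ hπ.1)
      (by
        obtain ⟨A, hA, hfalse⟩ := hπ.2
        exact ⟨pull A, List.mem_map_of_mem hA, fun x => by rw [ev_pull]; exact hfalse _⟩)
      (by
        intro B hB
        obtain ⟨A, hA, rfl⟩ := List.mem_map.mp hB
        rw [← hM]
        rcases hlines A hA with h | ⟨H, hH1, hH2⟩
        · have h1 : Wt (Real.exp (-(a r)) * (q * M)) (bf (pull A : Fm (Ed N D × Fin q)))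
              ≤ tailW n A (c r * n) := by
            rw [hn, ← Wt_pull, ← hn]
            exact Wt_mono hlam _
          refine h1.trans (h.trans ?_)
          have h2 : 5 * (M : ℝ) ≤ γ * n := by
            rw [div_le_iff₀ hγ] at hLγ
            have h3 : L ≤ q := by rw [hq]; exact Nat.le_mul_of_pos_left L hP0
            have h4 : (L : ℝ) ≤ q := by exact_mod_cast h3
            have h5 : (0 : ℝ) ≤ M := Nat.cast_nonneg _
            rw [hnMr]
            calc 5 * (M : ℝ) ≤ (L * γ) * M := mul_le_mul_of_nonneg_right hLγ h5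
              _ ≤ (q * γ) * M :=
                  mul_le_mul_of_nonneg_right (mul_le_mul_of_nonneg_right h4 hγ.le) h5
              _ = _ := by ring
          have h3 := two_rpow_le (x := γ * n) (y := 3 * M) (by
            have h5 : (0 : ℝ) ≤ M := Nat.cast_nonneg _
            linarith) (by positivity)
          rw [neg_mul]
          exact h3
        · have hqq : q = (∏ r' ∈ (range (R + 1)).erase r, q' r') * L * q' r := by
            have hmem : r ∈ range (R + 1) := mem_range.mpr (by omega)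
            rw [hq, hP, ← Finset.mul_prod_erase (range (R + 1)) q' hmem]
            ring
          set b : ℕ := (∏ r' ∈ (range (R + 1)).erase r, q' r') * L with hb
          have hbL : L ≤ b := Nat.le_mul_of_pos_left L (Finset.prod_pos fun r _ => hq' r)
          have hbLr : (L : ℝ) ≤ b := by exact_mod_cast hbL
          have h1 := hmain r (Ed N D × Fin q) (Ed N D × Fin b) (regroup (Ed N D) hqq) (by
            rw [Fintype.card_prod, Fintype.card_fin, ← hM]
            have h2 := hX1 r hr
            have h3 : M * 1 ≤ M * b := Nat.mul_le_mul_left M (by omega)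
            omega) (pull A) (nsp_pull A) (univ.filter (fun v => num v ∈ H)) (by
            rw [← hn]
            refine le_trans ?_ hH1
            exact_mod_cast card_H H) (by
            rw [← hn]
            refine le_trans ?_ hH2
            rw [hn]
            convert card_pull (P := Ed N D × Fin q) A H)
          have h2 : 3 * c r * (Fintype.card (Ed N D × Fin q) : ℝ) =
              Real.exp (-(a r)) * (q * M) := by
            rw [← hn, hnMr, hcdef]
            ring
          rw [h2] at h1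
          refine h1.trans ?_
          have hEb : (Fintype.card (Ed N D × Fin b) : ℝ) = M * b := by
            rw [Fintype.card_prod, Fintype.card_fin, ← hM]
            push_cast
            ring
          rw [hEb]
          have h3 : C r ≤ M := by
            have h4 := Nat.le_ceil (C r)
            have h5 : ⌈C r⌉₊ ≤ M := by
              have := hX1 r hr
              omega
            refine h4.trans ?_
            exact_mod_cast h5
          have h4 : C r ≤ Real.exp M := by
            have := Real.add_one_le_exp (M : ℝ)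
            linarith
          have h5 : 4 ≤ δ r * b := by
            have h6 := hLδ r hr
            rw [div_le_iff₀ (hδ r)] at h6
            calc (4 : ℝ) ≤ L * δ r := h6
              _ ≤ b * δ r := mul_le_mul_of_nonneg_right hbLr (hδ r).le
              _ = _ := by ring
          have hM0 : (0 : ℝ) ≤ M := Nat.cast_nonneg _
          calc C r * Real.exp (-δ r * ((M : ℝ) * b)) ≤
              Real.exp M * Real.exp (-δ r * ((M : ℝ) * b)) :=
                mul_le_mul_of_nonneg_right h4 (Real.exp_pos _).le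
            _ = Real.exp (M - δ r * b * M) := by
                rw [← Real.exp_add]
                ring_nf
            _ ≤ _ := by
                refine Real.exp_le_exp.mpr ?_
                nlinarith)
    rw [List.length_map, ← hM] at hkill
    refine le_trans ?_ hkill
    refine two_rpow_le' ?_ (by positivity)
    calc min (1 / Y) (1 / (q : ℝ)) * (n : ℝ) ≤ 1 / q * (M * q) := by
          rw [hnMr]
          exact mul_le_mul_of_nonneg_right (min_le_right _ _) (by positivity)
      _ = M := by field_simp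

end Pool.Agent.T9h90.FT
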