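import Mathlib

/-!
# Fourier analysis on the cube
-/

set_option autoImplicit false
set_option linter.unusedSectionVars false

namespace Pool.Agent.T9h90.FT

open Finset Classical

/-- the sign of a bit -/
def sg (b : Bool) : ℝ := if b then -1 else 1

theorem sg_mul_self (b : Bool) : sg b * sg b = 1 := by cases b <;> simp [sg]

theorem sum_sg : ∑ b : Bool, sg b = 0 := by simp [sg]

variable {V : Type} [Fintype V]

/-- the characters -/
noncomputable def chi (S : Finset V) (x : V → Bool) : ℝ := ∏ v ∈ S, sg (x v)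

theorem chi_eq (S : Finset V) (x : V → Bool) :
    chi S x = ∏ v, (if v ∈ S then sg (x v) else 1) := by
  unfold chi
  rw [Finset.prod_ite_mem, Finset.univ_inter]

theorem chi_mul (S T : Finset V) (x : V → Bool) :
    chi S x * chi T x = chi (symmDiff S T) x := by
  rw [chi_eq, chi_eq, chi_eq, ← Finset.prod_mul_distrib]
  refine Finset.prod_congr rfl fun v _ => ?_
  by_cases h1 : v ∈ S <;> by_cases h2 : v ∈ T <;> simp [h1, h2, Finset.mem_symmDiff, sg_mul_self]

theorem chi_empty (x : V → Bool) : chi ∅ x = 1 := by simp [chi]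

theorem chi_sq (S : Finset V) (x : V → Bool) : chi S x * chi S x = 1 := by
  rw [chi_mul, symmDiff_self]
  exact chi_empty x

theorem chi_dich (S : Finset V) (x : V → Bool) : chi S x = 1 ∨ chi S x = -1 := by
  have h := chi_sq S x
  have h1 : (chi S x - 1) * (chi S x + 1) = 0 := by nlinarith
  rcases mul_eq_zero.mp h1 with h2 | h2
  · left; linarith
  · right; linarith

theorem chi_symm_pt (S : Finset V) (x y : V → Bool) :
    chi S x * chi S y = ∏ v ∈ S, (sg (x v) * sg (y v)) := by
  unfold chi
  rw [Finset.prod_mul_distrib]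

theorem sum_prod_bool (g : V → Bool → ℝ) :
    ∑ x : V → Bool, ∏ v, g v (x v) = ∏ v, ∑ b, g v b := by
  rw [Finset.prod_univ_sum]
  refine Finset.sum_congr ?_ fun _ _ => rfl
  ext x
  simp

theorem sum_chi (S : Finset V) :
    ∑ x : V → Bool, chi S x = if S = ∅ then (2 : ℝ) ^ Fintype.card V else 0 := by
  have h : ∀ x : V → Bool, chi S x = ∏ v, (fun v b => if v ∈ S then sg b else (1 : ℝ)) v (x v) :=
    fun x => chi_eq S x
  rw [Finset.sum_congr rfl (fun x _ => h x),
    sum_prod_bool (fun v b => if v ∈ S then sg b else (1 : ℝ))]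
  split
  · rename_i hS
    subst hS
    simp
  · rename_i hS
    obtain ⟨v, hv⟩ := Finset.nonempty_iff_ne_empty.mpr hS
    refine Finset.prod_eq_zero (mem_univ v) ?_
    simp only [hv, if_true]
    exact sum_sg

/-- Fourier coefficients -/
noncomputable def fc (f : (V → Bool) → ℝ) (S : Finset V) : ℝ :=
  (∑ x, f x * chi S x) / 2 ^ Fintype.card V

theorem two_pow_pos' : (0 : ℝ) < 2 ^ Fintype.card V := by positivity

theorem sum_chi_pt (x y : V → Bool) :
    ∑ S : Finset V, chi S x * chi S y = if x = y then (2 : ℝ) ^ Fintype.card V else 0 := by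
  have h1 : ∑ S : Finset V, chi S x * chi S y = ∏ v, (1 + sg (x v) * sg (y v)) := by
    rw [Finset.prod_one_add, Finset.powerset_univ]
    exact Finset.sum_congr rfl fun S _ => chi_symm_pt S x y
  rw [h1]
  split
  · rename_i h
    subst h
    rw [Finset.prod_congr rfl (fun v _ => by rw [sg_mul_self]; norm_num :
      ∀ v ∈ univ, (1 + sg (x v) * sg (x v) : ℝ) = 2)]
    simp
  · rename_i h
    obtain ⟨v, hv⟩ := Function.ne_iff.mp h
    refine Finset.prod_eq_zero (mem_univ v) ?_
    cases hx : x v <;> cases hy : y v <;> simp_all [sg]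

theorem inversion (f : (V → Bool) → ℝ) (x : V → Bool) : f x = ∑ S, fc f S * chi S x := by
  unfold fc
  have h1 : ∀ S : Finset V, (∑ y, f y * chi S y) / 2 ^ Fintype.card V * chi S x =
      ∑ y, f y / 2 ^ Fintype.card V * (chi S y * chi S x) := by
    intro S
    rw [Finset.sum_div, Finset.sum_mul]
    exact Finset.sum_congr rfl fun y _ => by ring
  rw [Finset.sum_congr rfl (fun S _ => h1 S), Finset.sum_comm]
  have h2 : ∀ y : V → Bool, ∑ S : Finset V, f y / 2 ^ Fintype.card V * (chi S y * chi S x) =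
      if y = x then f y else 0 := by
    intro y
    rw [← Finset.mul_sum, sum_chi_pt]
    split
    · field_simp
    · simp
  rw [Finset.sum_congr rfl (fun y _ => h2 y)]
  simp

theorem parseval (f g : (V → Bool) → ℝ) :
    ∑ S, fc f S * fc g S = (∑ x, f x * g x) / 2 ^ Fintype.card V := by
  have h1 : ∀ x, f x * g x = ∑ S, fc f S * (g x * chi S x) := by
    intro x
    conv_lhs => rw [inversion f x]
    rw [Finset.sum_mul]
    exact Finset.sum_congr rfl fun S _ => by ring
  rw [Finset.sum_congr rfl (fun x _ => h1 x), Finset.sum_comm, Finset.sum_div]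
  refine Finset.sum_congr rfl fun S _ => ?_
  rw [← Finset.mul_sum, mul_div_assoc]
  rfl

theorem fc_chi_mul (T S : Finset V) (g : (V → Bool) → ℝ) :
    fc (fun x => chi T x * g x) S = fc g (symmDiff T S) := by
  unfold fc
  congr 1
  refine Finset.sum_congr rfl fun x _ => ?_
  rw [← chi_mul]
  ring

theorem fc_add (f g : (V → Bool) → ℝ) (S : Finset V) :
    fc (fun x => f x + g x) S = fc f S + fc g S := by
  unfold fc
  rw [← add_div, ← Finset.sum_add_distrib]
  congr 1
  exact Finset.sum_congr rfl fun x _ => by ring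

theorem fc_smul (a : ℝ) (f : (V → Bool) → ℝ) (S : Finset V) :
    fc (fun x => a * f x) S = a * fc f S := by
  unfold fc
  rw [← mul_div_assoc, Finset.mul_sum]
  congr 1
  exact Finset.sum_congr rfl fun x _ => by ring

theorem fc_sub (f g : (V → Bool) → ℝ) (S : Finset V) :
    fc (fun x => f x - g x) S = fc f S - fc g S := by
  have h := fc_add f (fun x => (-1) * g x) S
  rw [fc_smul] at h
  have e : (fun x => f x - g x) = fun x => f x + (-1) * g x := by funext x; ring
  rw [e, h]
  ring

theorem fc_sum {ι : Type} (s : Finset ι) (f : ι → (V → Bool) → ℝ) (S : Finset V) :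
    fc (fun x => ∑ i ∈ s, f i x) S = ∑ i ∈ s, fc (f i) S := by
  unfold fc
  rw [← Finset.sum_div, Finset.sum_comm]
  congr 1
  exact Finset.sum_congr rfl fun x _ => by rw [Finset.sum_mul]

theorem fc_chi (T S : Finset V) : fc (chi T) S = if T = S then 1 else 0 := by
  unfold fc
  simp only [chi_mul]
  rw [sum_chi]
  have h : symmDiff T S = ∅ ↔ T = S := by
    rw [← Finset.bot_eq_empty, symmDiff_eq_bot]
  by_cases hTS : T = S
  · rw [if_pos (h.mpr hTS), if_pos hTS]
    field_simp
  · rw [if_neg (fun hh => hTS (h.mp hh)), if_neg hTS, zero_div]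

theorem fc_one (S : Finset V) : fc (fun _ : V → Bool => (1 : ℝ)) S = if S = ∅ then 1 else 0 := by
  have h := fc_chi (∅ : Finset V) S
  have e : (chi (∅ : Finset V)) = fun _ : V → Bool => (1 : ℝ) := by funext x; exact chi_empty x
  rw [e] at h
  rw [h]
  simp only [eq_comm]

/-- uniqueness of the expansion -/
theorem fc_expand (a : Finset V → ℝ) (S : Finset V) :
    fc (fun x => ∑ T, a T * chi T x) S = a S := by
  have h := fc_sum univ (fun T x => a T * chi T x) S
  rw [h]
  have h2 : ∀ T ∈ (univ : Finset (Finset V)), fc (fun x => a T * chi T x) S =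
      if T = S then a T else 0 := by
    intro T _
    rw [fc_smul]
    have : fc (fun x => chi T x) S = if T = S then 1 else 0 := fc_chi T S
    rw [this]
    split <;> simp
  rw [Finset.sum_congr rfl h2]
  simp

theorem fc_mul (f g : (V → Bool) → ℝ) (S : Finset V) :
    fc (fun x => f x * g x) S = ∑ T, fc f T * fc g (symmDiff T S) := by
  have e : (fun x => f x * g x) = fun x => ∑ T, fc f T * (chi T x * g x) := by
    funext x
    conv_lhs => rw [inversion f x]
    rw [Finset.sum_mul]
    exact Finset.sum_congr rfl fun T _ => by ring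
  rw [e, fc_sum]
  refine Finset.sum_congr rfl fun T _ => ?_
  rw [fc_smul, fc_chi_mul]

/-- degree at most `d` -/
def dg (f : (V → Bool) → ℝ) (d : ℕ) : Prop := ∀ S : Finset V, d < S.card → fc f S = 0

theorem dg.mono {f : (V → Bool) → ℝ} {d e : ℕ} (h : dg f d) (hde : d ≤ e) : dg f e :=
  fun S hS => h S (lt_of_le_of_lt hde hS)

theorem card_symmDiff_ge (S T : Finset V) : S.card ≤ T.card + (symmDiff T S).card := by
  have h : S ⊆ T ∪ symmDiff T S := by
    intro v hv
    by_cases h : v ∈ T
    · exact mem_union_left _ h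
    · exact mem_union_right _ (Finset.mem_symmDiff.mpr (Or.inr ⟨hv, h⟩))
  exact (Finset.card_le_card h).trans (Finset.card_union_le _ _)

theorem dg.mul {f g : (V → Bool) → ℝ} {d e : ℕ} (hf : dg f d) (hg : dg g e) :
    dg (fun x => f x * g x) (d + e) := by
  intro S hS
  rw [fc_mul]
  refine Finset.sum_eq_zero fun T _ => ?_
  by_cases h : d < T.card
  · rw [hf T h, zero_mul]
  · have h1 := card_symmDiff_ge S T
    rw [hg _ (by omega), mul_zero]

theorem dg_one (d : ℕ) : dg (fun _ : V → Bool => (1 : ℝ)) d := by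
  intro S hS
  rw [fc_one, if_neg]
  rintro rfl
  simp at hS

theorem dg.sub {f g : (V → Bool) → ℝ} {d : ℕ} (hf : dg f d) (hg : dg g d) :
    dg (fun x => f x - g x) d := by
  intro S hS
  rw [fc_sub, hf S hS, hg S hS, sub_zero]

theorem sum_fc_sq_le {f : (V → Bool) → ℝ} (h : ∀ x, f x ^ 2 ≤ 1) : ∑ S, fc f S ^ 2 ≤ 1 := by
  have h1 := parseval f f
  have h2 : ∑ S, fc f S ^ 2 = (∑ x, f x * f x) / 2 ^ Fintype.card V := by
    rw [← h1]
    exact Finset.sum_congr rfl fun S _ => by ring
  rw [h2, div_le_one two_pow_pos']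
  calc ∑ x, f x * f x ≤ ∑ x : V → Bool, (1 : ℝ) :=
        Finset.sum_le_sum fun x _ => by nlinarith [h x]
    _ = 2 ^ Fintype.card V := by simp

/-- the coefficients of Boolean functions are multiples of `2 ^ (-n)` -/
theorem gran {f : (V → Bool) → ℝ} (h : ∀ x, f x = 0 ∨ f x = 1) (S : Finset V)
    (hS : fc f S ≠ 0) : 1 ≤ (fc f S) ^ 2 * 4 ^ Fintype.card V := by
  have h1 : ∃ z : ℤ, ∑ x, f x * chi S x = z := by
    have h2 : ∀ x : V → Bool, ∃ z : ℤ, f x * chi S x = z := by
      intro x
      rcases h x with h3 | h3 <;> rcases chi_dich S x with h4 | h4 <;> rw [h3, h4]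
      · exact ⟨0, by simp⟩
      · exact ⟨0, by simp⟩
      · exact ⟨1, by simp⟩
      · exact ⟨-1, by simp⟩
    choose z hz using h2
    refine ⟨∑ x, z x, ?_⟩
    push_cast
    exact Finset.sum_congr rfl fun x _ => hz x
  obtain ⟨z, hz⟩ := h1
  have h2 : fc f S = z / 2 ^ Fintype.card V := by
    unfold fc
    rw [hz]
  have hz0 : z ≠ 0 := by
    rintro rfl
    rw [h2] at hS
    simp at hS
  have e4 : (4 : ℝ) ^ Fintype.card V = (2 ^ Fintype.card V) ^ 2 := by
    rw [← pow_mul, mul_comm _ 2, pow_mul]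
    norm_num
  rw [h2, div_pow, e4, div_mul_cancel₀ _ (by positivity)]
  have h3 : (1 : ℤ) ≤ z ^ 2 := by
    have : 0 < z ^ 2 := by positivity
    omega
  exact_mod_cast h3

end Pool.Agent.T9h90.FT
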