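import Pool.Agent.T9h90.FT.Four
import Pool.Agent.T9h49.RK.Piece

/-!
# Restrictions
-/

set_option autoImplicit false
set_option linter.unusedSectionVars false

namespace Pool.Agent.T9h90.FT

open Finset Classical

open Pool.Agent.T9h49.RK (Cf asg)

/-- Fourier weight at the levels at least `t` -/
noncomputable def Wt {V : Type} [Fintype V] (t : ℝ) (f : (V → Bool) → ℝ) : ℝ :=
  ∑ S : Finset V, if t ≤ (S.card : ℝ) then fc f S ^ 2 else 0

section gen

variable {V V' : Type} [Fintype V] [Fintype V']

theorem fc_restr (a : (V → Bool) → (V' → Bool) → (V → Bool)) (l : Finset V → Finset V')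
    (d : Finset V → Finset V) (hchi : ∀ S z y, chi S (a z y) = chi (l S) y * chi (d S) z)
    (f : (V → Bool) → ℝ) (z : V → Bool) (T : Finset V') :
    fc (fun y => f (a z y)) T = ∑ S, (if l S = T then fc f S else 0) * chi (d S) z := by
  have e : (fun y => f (a z y)) = fun y => ∑ S, (fc f S * chi (d S) z) * chi (l S) y := by
    funext y
    rw [inversion f]
    exact Finset.sum_congr rfl fun S _ => by rw [hchi]; ring
  rw [e, fc_sum]
  refine Finset.sum_congr rfl fun S _ => ?_
  rw [fc_smul]
  have h1 : fc (fun x => chi (l S) x) T = if l S = T then 1 else 0 := fc_chi (l S) T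
  rw [h1]
  split <;> simp

theorem restr_sq (a : (V → Bool) → (V' → Bool) → (V → Bool)) (l : Finset V → Finset V')
    (d : Finset V → Finset V) (hchi : ∀ S z y, chi S (a z y) = chi (l S) y * chi (d S) z)
    (hinj : ∀ S S', l S = l S' → d S = d S' → S = S')
    (f : (V → Bool) → ℝ) (T : Finset V') :
    ∑ z, (fc (fun y => f (a z y)) T) ^ 2 =
      2 ^ Fintype.card V * ∑ S, (if l S = T then fc f S ^ 2 else 0) := by
  have h1 : ∀ z : V → Bool, (fc (fun y => f (a z y)) T) ^ 2 =
      ∑ S, ∑ S', ((if l S = T then fc f S else 0) * (if l S' = T then fc f S' else 0)) *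
        chi (symmDiff (d S) (d S')) z := by
    intro z
    rw [fc_restr a l d hchi f z T, sq, Finset.sum_mul_sum]
    refine Finset.sum_congr rfl fun S _ => Finset.sum_congr rfl fun S' _ => ?_
    rw [← chi_mul]
    ring
  rw [Finset.sum_congr rfl (fun z _ => h1 z), Finset.sum_comm, Finset.mul_sum]
  refine Finset.sum_congr rfl fun S _ => ?_
  rw [Finset.sum_comm]
  rw [Finset.sum_eq_single S]
  · rw [← Finset.mul_sum, sum_chi, if_pos (show symmDiff (d S) (d S) = ∅ by
      rw [symmDiff_self]; rfl)]
    split
    · ring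
    · ring
  · intro S' _ hne
    rw [← Finset.mul_sum, sum_chi]
    by_cases h2 : l S = T
    · by_cases h3 : l S' = T
      · rw [if_neg (show ¬ symmDiff (d S) (d S') = ∅ by
          rw [← Finset.bot_eq_empty, symmDiff_eq_bot]
          intro h4
          exact hne (hinj S' S (h3.trans h2.symm) h4.symm)), mul_zero]
      · rw [if_neg h3]; ring
    · rw [if_neg h2]; ring
  · intro h2
    exact absurd (mem_univ _) h2

theorem restr_tail (a : (V → Bool) → (V' → Bool) → (V → Bool)) (l : Finset V → Finset V')
    (d : Finset V → Finset V) (hchi : ∀ S z y, chi S (a z y) = chi (l S) y * chi (d S) z)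
    (hinj : ∀ S S', l S = l S' → d S = d S' → S = S')
    (f : (V → Bool) → ℝ) (P : Finset V' → Prop) :
    ∑ z, ∑ T, (if P T then (fc (fun y => f (a z y)) T) ^ 2 else 0) =
      2 ^ Fintype.card V * ∑ S, (if P (l S) then fc f S ^ 2 else 0) := by
  rw [Finset.sum_comm]
  have h1 : ∀ T : Finset V', ∑ z, (if P T then (fc (fun y => f (a z y)) T) ^ 2 else 0) =
      2 ^ Fintype.card V * ∑ S, (if l S = T then (if P (l S) then fc f S ^ 2 else 0) else 0) := by
    intro T
    by_cases hP : P T
    · simp only [hP, if_true]
      rw [restr_sq a l d hchi hinj f T]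
      congr 1
      refine Finset.sum_congr rfl fun S _ => ?_
      split
      · rename_i h
        rw [h, if_pos hP]
      · rfl
    · simp only [hP, if_false, Finset.sum_const_zero]
      rw [Finset.sum_eq_zero, mul_zero]
      intro S _
      split
      · rename_i h
        rw [h, if_neg hP]
      · rfl
  rw [Finset.sum_congr rfl (fun T _ => h1 T), ← Finset.mul_sum, Finset.sum_comm]
  congr 1
  refine Finset.sum_congr rfl fun S _ => ?_
  rw [Finset.sum_ite_eq]
  simp

/-- fixing the variables in `H` -/
theorem Wt_fix (H : Finset V) (f : (V → Bool) → ℝ) (t : ℝ) :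
    2 ^ Fintype.card V * Wt (t + H.card) f ≤
      ∑ z : V → Bool, Wt t (fun y => f (fun v => if v ∈ H then z v else y v)) := by
  have h1 := restr_tail (V' := V) (fun z y v => if v ∈ H then z v else y v) (fun S => S \ H)
    (fun S => S ∩ H) (by
      intro S z y
      unfold chi
      rw [← Finset.prod_sdiff (Finset.inter_subset_left (s₁ := S) (s₂ := H))]
      have e : S \ (S ∩ H) = S \ H := by
        ext v
        simp only [mem_sdiff, mem_inter]
        tauto
      rw [e]
      congr 1
      · refine Finset.prod_congr rfl fun v hv => ?_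
        rw [mem_sdiff] at hv
        simp only [if_neg hv.2]
      · refine Finset.prod_congr rfl fun v hv => ?_
        rw [mem_inter] at hv
        simp only [if_pos hv.2]) (by
      intro S S' h2 h3
      rw [← Finset.sdiff_union_inter S H, h2, h3, Finset.sdiff_union_inter]) f
    (fun T => t ≤ (T.card : ℝ))
  unfold Wt
  rw [h1]
  refine mul_le_mul_of_nonneg_left ?_ (by positivity)
  refine Finset.sum_le_sum fun S _ => ?_
  by_cases h2 : t + (H.card : ℝ) ≤ (S.card : ℝ)
  · rw [if_pos h2, if_pos]
    have h3 : S.card ≤ (S \ H).card + H.card := by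
      have h4 := Finset.card_sdiff_add_card_inter S H
      have h5 := Finset.card_le_card (Finset.inter_subset_right (s₁ := S) (s₂ := H))
      omega
    have h4 : (S.card : ℝ) ≤ ((S \ H).card : ℝ) + H.card := by exact_mod_cast h3
    linarith
  · rw [if_neg h2]
    split
    · positivity
    · exact le_rfl

theorem Wt_fix_le (H : Finset V) (f : (V → Bool) → ℝ) (t B : ℝ)
    (h : ∀ z : V → Bool, Wt t (fun y => f (fun v => if v ∈ H then z v else y v)) ≤ B) :
    Wt (t + H.card) f ≤ B := by
  have h1 := Wt_fix H f t
  have h2 : ∑ z : V → Bool, Wt t (fun y => f (fun v => if v ∈ H then z v else y v)) ≤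
      2 ^ Fintype.card V * B := by
    calc _ ≤ ∑ z : V → Bool, B := Finset.sum_le_sum fun z _ => h z
      _ = _ := by simp
  exact le_of_mul_le_mul_left (h1.trans h2) (by positivity)

theorem Wt_nonneg (t : ℝ) (f : (V → Bool) → ℝ) : 0 ≤ Wt t f := by
  unfold Wt
  refine Finset.sum_nonneg fun S _ => ?_
  split
  · positivity
  · exact le_rfl

theorem Wt_mono {t t' : ℝ} (h : t ≤ t') (f : (V → Bool) → ℝ) : Wt t' f ≤ Wt t f := by
  unfold Wt
  refine Finset.sum_le_sum fun S _ => ?_
  by_cases h1 : t' ≤ (S.card : ℝ)
  · rw [if_pos h1, if_pos (h.trans h1)]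
  · rw [if_neg h1]
    split
    · positivity
    · exact le_rfl

theorem Wt_le_one {t : ℝ} {f : (V → Bool) → ℝ} (h : ∀ x, f x ^ 2 ≤ 1) : Wt t f ≤ 1 := by
  refine le_trans ?_ (sum_fc_sq_le h)
  unfold Wt
  refine Finset.sum_le_sum fun S _ => ?_
  split
  · exact le_rfl
  · positivity

end gen

section equiv

variable {V V' : Type} [Fintype V] [Fintype V']

theorem fc_equiv (e : V ≃ V') (f : (V' → Bool) → ℝ) (S : Finset V) :
    fc (fun x : V → Bool => f (fun v' => x (e.symm v'))) S = fc f (S.map e.toEmbedding) := by
  unfold fc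
  rw [Fintype.card_congr e]
  congr 1
  refine Fintype.sum_equiv (Equiv.arrowCongr e (Equiv.refl Bool)) _ _ fun x => ?_
  have h1 : (Equiv.arrowCongr e (Equiv.refl Bool)) x = fun v' => x (e.symm v') := by
    funext v'
    rfl
  rw [h1]
  congr 1
  unfold chi
  rw [Finset.prod_map]
  simp

theorem Wt_equiv (e : V ≃ V') (f : (V' → Bool) → ℝ) (t : ℝ) :
    Wt t (fun x : V → Bool => f (fun v' => x (e.symm v'))) = Wt t f := by
  unfold Wt
  refine Fintype.sum_equiv (Equiv.finsetCongr e) _ _ fun S => ?_
  rw [fc_equiv]
  simp [Equiv.finsetCongr_apply]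

end equiv

section blocks

variable {E : Type} {q : ℕ} [Fintype E]

/-- live blocks of a set -/
noncomputable def liv (u : E → Fin q) (S : Finset (E × Fin q)) : Finset E :=
  univ.filter (fun e => (e, u e) ∈ S)

/-- dead part of a set -/
noncomputable def ded (u : E → Fin q) (S : Finset (E × Fin q)) : Finset (E × Fin q) :=
  S.filter (fun p => ¬ u p.1 = p.2)

theorem chi_asg (u : E → Fin q) (S : Finset (E × Fin q)) (z : E × Fin q → Bool) (y : E → Bool) :
    chi S (asg (u, z) y) = chi (liv u S) y * chi (ded u S) z := by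
  unfold chi
  rw [← Finset.prod_filter_mul_prod_filter_not S (fun p => u p.1 = p.2)]
  congr 1
  · refine Finset.prod_nbij' (fun p => p.1) (fun e => (e, u e)) ?_ ?_ ?_ ?_ ?_
    · rintro ⟨e, b⟩ hp
      simp only [mem_filter] at hp
      simp only [liv, mem_filter, mem_univ, true_and]
      rw [hp.2]
      exact hp.1
    · intro e he
      simp only [liv, mem_filter, mem_univ, true_and] at he
      simp only [mem_filter, he, true_and]
    · rintro ⟨e, b⟩ hp
      simp only [mem_filter] at hp
      simp only [hp.2]
    · intro e _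
      rfl
    · rintro ⟨e, b⟩ hp
      simp only [mem_filter] at hp
      simp only [asg, hp.2, if_true]
  · refine Finset.prod_congr rfl fun p hp => ?_
    have hp2 := (mem_filter.mp hp).2
    simp only [asg, if_neg hp2]

theorem ded_inj (u : E → Fin q) (S S' : Finset (E × Fin q)) (h1 : liv u S = liv u S')
    (h2 : ded u S = ded u S') : S = S' := by
  have h : ∀ S S' : Finset (E × Fin q), liv u S = liv u S' → ded u S = ded u S' → S ⊆ S' := by
    intro S S' h1 h2 p hp
    by_cases h3 : u p.1 = p.2
    · have h4 : p.1 ∈ liv u S := by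
        simp only [liv, mem_filter, mem_univ, true_and]
        rw [h3]
        exact hp
      rw [h1] at h4
      simp only [liv, mem_filter, mem_univ, true_and] at h4
      rw [h3] at h4
      exact h4
    · have h4 : p ∈ ded u S := by
        simp only [ded, mem_filter]
        exact ⟨hp, h3⟩
      rw [h2] at h4
      simp only [ded, mem_filter] at h4
      exact h4.1
  exact Finset.Subset.antisymm (h S S' h1 h2) (h S' S h1.symm h2.symm)

theorem univ_inst {α : Type} (i1 i2 : Fintype α) :
    @Finset.univ α i1 = @Finset.univ α i2 := by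
  rw [Subsingleton.elim i1 i2]

theorem block_tail (f : (E × Fin q → Bool) → ℝ) (P : Finset E → Prop) :
    ∑ w : Cf E q, ∑ T, (if P T then (fc (fun y => f (asg w y)) T) ^ 2 else 0) =
      2 ^ Fintype.card (E × Fin q) * ∑ S, fc f S ^ 2 *
        ((univ.filter (fun u : E → Fin q => P (liv u S))).card : ℝ) := by
  rw [Fintype.sum_prod_type]
  have h1 : ∀ u : E → Fin q, ∑ z : E × Fin q → Bool,
      ∑ T, (if P T then (fc (fun y => f (asg (u, z) y)) T) ^ 2 else 0) =
      2 ^ Fintype.card (E × Fin q) * ∑ S, (if P (liv u S) then fc f S ^ 2 else 0) := by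
    intro u
    have h := restr_tail (fun z y => asg (u, z) y) (liv u) (ded u)
      (fun S z y => chi_asg u S z y) (ded_inj u) f P
    refine Eq.trans ?_ h
    exact Finset.sum_congr (univ_inst _ _) fun _ _ => rfl
  rw [Finset.sum_congr rfl (fun u _ => h1 u), ← Finset.mul_sum, Finset.sum_comm]
  congr 1
  refine Finset.sum_congr rfl fun S _ => ?_
  rw [← Finset.sum_filter, Finset.sum_const, nsmul_eq_mul, mul_comm]

theorem card_Cf : (Fintype.card (Cf E q) : ℝ) =
    2 ^ Fintype.card (E × Fin q) * Fintype.card (E → Fin q) := by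
  rw [Fintype.card_prod, mul_comm]
  push_cast
  congr 1
  rw [Fintype.card_fun]
  push_cast
  simp

theorem sum_prod_fn (g : E → Fin q → ℝ) :
    ∑ u : E → Fin q, ∏ e, g e (u e) = ∏ e, ∑ b, g e b := by
  rw [Finset.prod_univ_sum]
  refine Finset.sum_congr ?_ fun _ _ => rfl
  ext x
  simp

theorem sum_card (S : Finset (E × Fin q)) :
    ∑ e : E, ((univ.filter (fun b : Fin q => (e, b) ∈ S)).card : ℝ) = S.card := by
  have h1 : S.card = ∑ p : E × Fin q, if p ∈ S then 1 else 0 := by
    rw [Finset.sum_ite_mem, Finset.univ_inter]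
    simp
  rw [Fintype.sum_prod_type] at h1
  rw [h1]
  push_cast
  refine Finset.sum_congr rfl fun e _ => ?_
  rw [Finset.card_filter]
  push_cast
  rfl

theorem chern (hq : 0 < q) (S : Finset (E × Fin q)) (a j : ℝ) (ha : 0 ≤ a) :
    ((univ.filter (fun u : E → Fin q => j ≤ ((liv u S).card : ℝ))).card : ℝ) ≤
      Fintype.card (E → Fin q) *
        Real.exp ((Real.exp a - 1) * (S.card / q) - a * j) := by
  have hq0 : (0 : ℝ) < q := by exact_mod_cast hq
  have h1 : ∑ u : E → Fin q, Real.exp (a * ((liv u S).card : ℝ)) ≤
      Fintype.card (E → Fin q) * Real.exp ((Real.exp a - 1) * (S.card / q)) := by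
    have h2 : ∀ u : E → Fin q, Real.exp (a * ((liv u S).card : ℝ)) =
        ∏ e, (fun (e : E) (b : Fin q) => if (e, b) ∈ S then Real.exp a else 1) e (u e) := by
      intro u
      simp only
      rw [Finset.prod_ite, Finset.prod_const, Finset.prod_const_one, mul_one, ← Real.exp_nat_mul,
        mul_comm]
      rfl
    rw [Finset.sum_congr rfl (fun u _ => h2 u),
      sum_prod_fn (fun (e : E) (b : Fin q) => if (e, b) ∈ S then Real.exp a else 1)]
    have h3 : ∀ e : E, ∑ b : Fin q, (if (e, b) ∈ S then Real.exp a else 1) ≤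
        q * Real.exp ((Real.exp a - 1) *
          (((univ.filter (fun b : Fin q => (e, b) ∈ S)).card : ℝ) / q)) := by
      intro e
      set s : ℝ := ((univ.filter (fun b : Fin q => (e, b) ∈ S)).card : ℝ) with hs
      have h4 : ∑ b : Fin q, (if (e, b) ∈ S then Real.exp a else 1) =
          q + (Real.exp a - 1) * s := by
        have h5 : ∀ b : Fin q, (if (e, b) ∈ S then Real.exp a else (1 : ℝ)) =
            1 + (Real.exp a - 1) * (if (e, b) ∈ S then 1 else 0) := by
          intro b
          split <;> ring
        rw [Finset.sum_congr rfl (fun b _ => h5 b), Finset.sum_add_distrib, ← Finset.mul_sum,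
          Finset.sum_boole]
        simp [hs]
      rw [h4]
      have h6 := Real.add_one_le_exp ((Real.exp a - 1) * (s / q))
      calc (q : ℝ) + (Real.exp a - 1) * s = q * ((Real.exp a - 1) * (s / q) + 1) := by
            field_simp
            ring
        _ ≤ _ := mul_le_mul_of_nonneg_left h6 hq0.le
    calc ∏ e : E, ∑ b : Fin q, (if (e, b) ∈ S then Real.exp a else 1) ≤
        ∏ e : E, (q * Real.exp ((Real.exp a - 1) *
          (((univ.filter (fun b : Fin q => (e, b) ∈ S)).card : ℝ) / q))) := by
          refine Finset.prod_le_prod (fun e _ => ?_) (fun e _ => h3 e)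
          refine Finset.sum_nonneg fun b _ => ?_
          split
          · exact (Real.exp_pos a).le
          · norm_num
      _ = _ := by
          rw [Finset.prod_mul_distrib, ← Real.exp_sum, Finset.prod_const, Finset.card_univ,
            ← Finset.mul_sum, ← Finset.sum_div, sum_card, Fintype.card_fun, Fintype.card_fin]
          push_cast
          rfl
  have h2 : ((univ.filter (fun u : E → Fin q => j ≤ ((liv u S).card : ℝ))).card : ℝ) *
      Real.exp (a * j) ≤ ∑ u : E → Fin q, Real.exp (a * ((liv u S).card : ℝ)) := by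
    rw [← nsmul_eq_mul, ← Finset.sum_const]
    refine le_trans (Finset.sum_le_sum (g := fun u => Real.exp (a * ((liv u S).card : ℝ)))
      fun u hu => ?_) (Finset.sum_le_sum_of_subset_of_nonneg (subset_univ _)
        (fun u _ _ => (Real.exp_pos _).le))
    rw [mem_filter] at hu
    exact Real.exp_le_exp.mpr (mul_le_mul_of_nonneg_left hu.2 ha)
  rw [Real.exp_sub, ← mul_div_assoc, le_div_iff₀ (Real.exp_pos _)]
  exact h2.trans h1

/-- **Few restrictions leave a function of large degree.** -/
theorem deg_count (hq : 0 < q) (f : (E × Fin q → Bool) → ℝ) (hf : ∀ x, f x = 0 ∨ f x = 1)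
    (j : ℕ) (t a : ℝ) (ha : 0 ≤ a) :
    ((univ.filter (fun w : Cf E q => ¬ dg (fun y => f (asg w y)) j)).card : ℝ) ≤
      Fintype.card (Cf E q) * (4 ^ Fintype.card E * (Wt t f +
        Real.exp ((Real.exp a - 1) * (t / q) - a * j))) := by
  have hq0 : (0 : ℝ) < q := by exact_mod_cast hq
  have hea : 0 ≤ Real.exp a - 1 := by
    have := Real.one_le_exp ha
    linarith
  set B : ℝ := Real.exp ((Real.exp a - 1) * (t / q) - a * j) with hB
  have hB0 : 0 < B := Real.exp_pos _
  have hsq : ∀ x, f x ^ 2 ≤ 1 := by
    intro x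
    rcases hf x with h | h <;> rw [h] <;> norm_num
  have h1 : ∑ w : Cf E q, ∑ T : Finset E,
      (if j < T.card then (fc (fun y => f (asg w y)) T) ^ 2 else 0) =
      2 ^ Fintype.card (E × Fin q) * ∑ S, fc f S ^ 2 *
        ((univ.filter (fun u : E → Fin q => j < (liv u S).card)).card : ℝ) := by
    convert block_tail f (fun T => j < T.card)
  have h2 : ((univ.filter (fun w : Cf E q => ¬ dg (fun y => f (asg w y)) j)).card : ℝ) ≤
      4 ^ Fintype.card E * ∑ w : Cf E q,
        ∑ T : Finset E, (if j < T.card then (fc (fun y => f (asg w y)) T) ^ 2 else 0) := by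
    rw [Finset.mul_sum, Finset.card_filter]
    push_cast
    refine Finset.sum_le_sum fun w _ => ?_
    split
    · rename_i hw
      unfold dg at hw
      push Not at hw
      obtain ⟨T, hT, hne⟩ := hw
      have h3 := gran (f := fun y => f (asg w y)) (fun y => hf _) T hne
      have h4 : (fc (fun y => f (asg w y)) T) ^ 2 ≤
          ∑ T : Finset E, (if j < T.card then (fc (fun y => f (asg w y)) T) ^ 2 else 0) := by
        refine le_trans ?_ (Finset.single_le_sum (f := fun T : Finset E =>
          (if j < T.card then (fc (fun y => f (asg w y)) T) ^ 2 else 0)) ?_ (mem_univ T))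
        · simp only [hT, if_true, le_refl]
        · intro T' _
          split
          · positivity
          · exact le_rfl
      calc (1 : ℝ) ≤ (fc (fun y => f (asg w y)) T) ^ 2 * 4 ^ Fintype.card E := h3
        _ ≤ _ := by
            rw [mul_comm]
            exact mul_le_mul_of_nonneg_left h4 (by positivity)
    · refine mul_nonneg (by positivity) (Finset.sum_nonneg fun T _ => ?_)
      split
      · positivity
      · exact le_rfl
  have h3 : ∑ S, fc f S ^ 2 *
      ((univ.filter (fun u : E → Fin q => j < (liv u S).card)).card : ℝ) ≤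
      Fintype.card (E → Fin q) * (Wt t f + B) := by
    have h4 : ∀ S : Finset (E × Fin q), fc f S ^ 2 *
        ((univ.filter (fun u : E → Fin q => j < (liv u S).card)).card : ℝ) ≤
        Fintype.card (E → Fin q) * ((if t ≤ (S.card : ℝ) then fc f S ^ 2 else 0) +
          fc f S ^ 2 * B) := by
      intro S
      have hc : ((univ.filter (fun u : E → Fin q => j < (liv u S).card)).card : ℝ) ≤
          Fintype.card (E → Fin q) := by
        rw [← Finset.card_univ]
        exact_mod_cast Finset.card_filter_le _ _
      by_cases h5 : t ≤ (S.card : ℝ)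
      · rw [if_pos h5]
        have h6 : (0 : ℝ) ≤ fc f S ^ 2 := by positivity
        have h7 : (0 : ℝ) ≤ Fintype.card (E → Fin q) := Nat.cast_nonneg _
        calc _ ≤ fc f S ^ 2 * Fintype.card (E → Fin q) := mul_le_mul_of_nonneg_left hc h6
          _ ≤ _ := by nlinarith [mul_nonneg h7 (mul_nonneg h6 hB0.le)]
      · rw [if_neg h5, zero_add]
        have h6 : ((univ.filter (fun u : E → Fin q => j < (liv u S).card)).card : ℝ) ≤
            Fintype.card (E → Fin q) * B := by
          refine le_trans ?_ ((chern hq S a j ha).trans ?_)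
          · have : (univ.filter (fun u : E → Fin q => j < (liv u S).card)) ⊆
                univ.filter (fun u : E → Fin q => (j : ℝ) ≤ ((liv u S).card : ℝ)) := by
              intro u hu
              rw [mem_filter] at hu ⊢
              exact ⟨hu.1, by exact_mod_cast hu.2.le⟩
            exact_mod_cast Finset.card_le_card this
          · refine mul_le_mul_of_nonneg_left ?_ (Nat.cast_nonneg _)
            rw [hB]
            refine Real.exp_le_exp.mpr ?_
            have h7 : (S.card : ℝ) / q ≤ t / q :=
              div_le_div_of_nonneg_right (le_of_lt (not_le.mp h5)) hq0.le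
            have := mul_le_mul_of_nonneg_left h7 hea
            linarith
        calc _ ≤ fc f S ^ 2 * (Fintype.card (E → Fin q) * B) :=
              mul_le_mul_of_nonneg_left h6 (by positivity)
          _ = _ := by ring
    calc _ ≤ ∑ S : Finset (E × Fin q), Fintype.card (E → Fin q) *
          ((if t ≤ (S.card : ℝ) then fc f S ^ 2 else 0) + fc f S ^ 2 * B) :=
          Finset.sum_le_sum fun S _ => h4 S
      _ = Fintype.card (E → Fin q) * (Wt t f + (∑ S, fc f S ^ 2) * B) := by
          rw [← Finset.mul_sum, Finset.sum_add_distrib, Finset.sum_mul]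
          rfl
      _ ≤ _ := by
          refine mul_le_mul_of_nonneg_left ?_ (Nat.cast_nonneg _)
          have h5 := mul_le_mul_of_nonneg_right (sum_fc_sq_le hsq) hB0.le
          linarith
  refine h2.trans ?_
  rw [h1, card_Cf]
  calc (4 : ℝ) ^ Fintype.card E * (2 ^ Fintype.card (E × Fin q) * ∑ S, fc f S ^ 2 *
        ((univ.filter (fun u : E → Fin q => j < (liv u S).card)).card : ℝ)) ≤
      4 ^ Fintype.card E * (2 ^ Fintype.card (E × Fin q) *
        (Fintype.card (E → Fin q) * (Wt t f + B))) := by
        refine mul_le_mul_of_nonneg_left (mul_le_mul_of_nonneg_left h3 (by positivity))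
          (by positivity)
    _ = _ := by ring

end blocks

end Pool.Agent.T9h90.FT
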