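import Pool.Agent.T9h90.FT.Tail

/-!
# Refutations with small Fourier tails are long
-/

set_option autoImplicit false
set_option linter.unusedSectionVars false

namespace Pool.Agent.T9h90.FT

open Finset Classical

open Pool.Agent.T9h49.RK (Cf asg Fm rel mem_rel SemDer sat_flip par)

theorem four_pow_le (m : ℕ) : (4 : ℝ) ^ m ≤ Real.exp (1.4 * m) := by
  have h1 : (4 : ℝ) ≤ Real.exp 1.4 := by
    have h2 := Real.log_two_lt_d9
    have h3 : Real.log 4 ≤ 1.4 := by
      have : Real.log 4 = 2 * Real.log 2 := by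
        rw [show (4 : ℝ) = 2 ^ 2 by norm_num, Real.log_pow]
        norm_num
      rw [this]
      linarith
    calc (4 : ℝ) = Real.exp (Real.log 4) := (Real.exp_log (by norm_num)).symm
      _ ≤ _ := Real.exp_le_exp.mpr h3
  calc (4 : ℝ) ^ m ≤ (Real.exp 1.4) ^ m := pow_le_pow_left₀ (by norm_num) h1 m
    _ = Real.exp (1.4 * m) := by rw [← Real.exp_nat_mul, mul_comm]

theorem num_bound (m : ℕ) (hm : 2 ≤ m) :
    (4 : ℝ) ^ m * (Real.exp (-3 * m) + Real.exp (-9 * m)) ≤ Real.exp (-(m : ℝ)) := by
  have hm' : (2 : ℝ) ≤ m := by exact_mod_cast hm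
  have h1 : Real.exp (-9 * (m : ℝ)) ≤ Real.exp (-3 * m) := Real.exp_le_exp.mpr (by linarith)
  calc (4 : ℝ) ^ m * (Real.exp (-3 * m) + Real.exp (-9 * m)) ≤
      Real.exp (1.4 * m) * (2 * Real.exp (-3 * m)) :=
        mul_le_mul (four_pow_le m) (by linarith) (by positivity) (by positivity)
    _ = 2 * Real.exp (1.4 * m + -3 * m) := by rw [Real.exp_add]; ring
    _ ≤ Real.exp (0.6 * m) * Real.exp (1.4 * m + -3 * m) := by
        refine mul_le_mul_of_nonneg_right ?_ (Real.exp_pos _).le
        have h2 := Real.add_one_le_exp (0.6 * (m : ℝ))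
        linarith
    _ = _ := by
        rw [← Real.exp_add]
        ring_nf

theorem kill {W E : Type} [Fintype W] [Fintype E] (M : W → E → Prop) (h r d : ℕ)
    (hx : Exp M h) (hd : 2 * ((r + 1) * d) ≤ h) (hv : ∀ v, (dl M {v}).card + d ≤ h) {q : ℕ}
    (hq : 0 < q) (a : ℝ) (ha : 0 ≤ a) (hda : 10 * (Fintype.card E : ℝ) ≤ a * d)
    (hE : 2 ≤ Fintype.card E) (Q : List (Fm (E × Fin q))) (hQ : SemDer M r Q)
    (hfin : ∃ L ∈ Q, ∀ x, L.ev x = false)
    (hWt : ∀ L ∈ Q, Wt (Real.exp (-a) * (q * Fintype.card E)) (bf L) ≤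
      Real.exp (-3 * Fintype.card E)) :
    Real.exp (Fintype.card E) ≤ Q.length := by
  set m : ℝ := (Fintype.card E : ℝ) with hm
  have hq0 : (0 : ℝ) < q := by exact_mod_cast hq
  have hcf : (0 : ℝ) < Fintype.card (Cf E q) := by
    have : Nonempty (Fin q) := ⟨⟨0, hq⟩⟩
    exact_mod_cast Fintype.card_pos
  have h1 : (univ : Finset (Cf E q)) ⊆ Q.toFinset.biUnion
      (fun L => univ.filter (fun w : Cf E q => ¬ dg (fun y => bf L (asg w y)) d)) := by
    intro w _
    by_contra hcon
    simp only [mem_biUnion, List.mem_toFinset, mem_filter, mem_univ, true_and, not_exists,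
      not_and, not_not] at hcon
    obtain ⟨L, hL, hfalse⟩ := hfin
    have h2 := no_ref (M := M) (fun v y => par M v (asg w y) = 1)
      (fun v e y => sat_flip M w v e y) hx r d hd hv _ (hQ.chain w) (by
        intro P hP
        obtain ⟨L', hL', rfl⟩ := List.mem_map.mp hP
        have h3 := hcon L' hL'
        have e : (ind fun y => L'.ev (asg w y) = true) = fun y => bf L' (asg w y) := by
          funext y
          simp [ind, bf]
        rw [e]
        exact h3) _ (List.mem_map_of_mem hL)
    obtain ⟨y, hy⟩ := h2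
    rw [hfalse] at hy
    exact absurd hy (by simp)
  have h2 : ∀ L ∈ Q, ((univ.filter (fun w : Cf E q =>
      ¬ dg (fun y => bf L (asg w y)) d)).card : ℝ) ≤
      Fintype.card (Cf E q) * Real.exp (-m) := by
    intro L hL
    refine (deg_count hq (bf L) (bf_bool L) d (Real.exp (-a) * (q * m)) a ha).trans ?_
    refine mul_le_mul_of_nonneg_left ?_ hcf.le
    refine le_trans ?_ (num_bound (Fintype.card E) hE)
    refine mul_le_mul_of_nonneg_left ?_ (by positivity)
    refine add_le_add (hWt L hL) (Real.exp_le_exp.mpr ?_)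
    have h3 : (Real.exp a - 1) * (Real.exp (-a) * (q * m) / q) ≤ m := by
      have h4 : (Real.exp a - 1) * (Real.exp (-a) * (q * m) / q) =
          (Real.exp a * Real.exp (-a)) * m - Real.exp (-a) * m := by
        field_simp
      rw [h4, ← Real.exp_add, add_neg_cancel, Real.exp_zero, one_mul]
      have h5 : 0 ≤ Real.exp (-a) * m := by positivity
      linarith
    linarith
  have h3 : (Fintype.card (Cf E q) : ℝ) ≤ Q.length *
      (Fintype.card (Cf E q) * Real.exp (-m)) := by
    calc (Fintype.card (Cf E q) : ℝ) = ((univ : Finset (Cf E q)).card : ℝ) := by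
          rw [Finset.card_univ]
      _ ≤ ((Q.toFinset.biUnion (fun L => univ.filter
          (fun w : Cf E q => ¬ dg (fun y => bf L (asg w y)) d))).card : ℝ) := by
          exact_mod_cast Finset.card_le_card h1
      _ ≤ ∑ L ∈ Q.toFinset, ((univ.filter
          (fun w : Cf E q => ¬ dg (fun y => bf L (asg w y)) d)).card : ℝ) := by
          exact_mod_cast Finset.card_biUnion_le
      _ ≤ ∑ L ∈ Q.toFinset, (Fintype.card (Cf E q) * Real.exp (-m)) :=
          Finset.sum_le_sum fun L hL => h2 L (List.mem_toFinset.mp hL)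
      _ = Q.toFinset.card * (Fintype.card (Cf E q) * Real.exp (-m)) := by
          rw [Finset.sum_const, nsmul_eq_mul]
      _ ≤ _ := by
          refine mul_le_mul_of_nonneg_right ?_ (by positivity)
          exact_mod_cast List.toFinset_card_le Q
  have h4 : (1 : ℝ) ≤ Q.length * Real.exp (-m) := by
    have h5 : (Fintype.card (Cf E q) : ℝ) * 1 ≤ Fintype.card (Cf E q) *
        (Q.length * Real.exp (-m)) := by
      rw [mul_one]
      exact h3.trans (le_of_eq (by ring))
    exact le_of_mul_le_mul_left h5 hcf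
  rw [Real.exp_neg] at h4
  have h5 := mul_le_mul_of_nonneg_right h4 (Real.exp_pos m).le
  rw [one_mul, mul_assoc, inv_mul_cancel₀ (Real.exp_pos m).ne', mul_one] at h5
  exact h5

end Pool.Agent.T9h90.FT
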