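import Pool.Agent.T9h90.FT.Four
import Pool.Agent.T9h49.RK.Meas

/-!
# Pseudo-expectations
-/

set_option autoImplicit false
set_option linter.unusedSectionVars false

namespace Pool.Agent.T9h90.FT

open Finset Classical

open Pool.Agent.T9h49.RK (bd Chain Imp flip_self flip_ne)

variable {W E : Type} [Fintype W] [Fintype E]

/-- the edges with an odd number of ends in `A` -/
noncomputable def dl (M : W → E → Prop) (A : Finset W) : Finset E :=
  univ.filter (fun e => Odd (A.filter (fun v => M v e)).card)

theorem odd_card_symmDiff {α : Type} (S T : Finset α) :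
    Odd (symmDiff S T).card ↔ ¬ (Odd S.card ↔ Odd T.card) := by
  have h1 : (symmDiff S T).card + 2 * (S ∩ T).card = S.card + T.card := by
    have h2 : (symmDiff S T).card = (S \ T).card + (T \ S).card := by
      rw [symmDiff_def, Finset.sup_eq_union, Finset.card_union_of_disjoint]
      rw [Finset.disjoint_left]
      intro x hx hy
      rw [mem_sdiff] at hx hy
      exact hx.2 hy.1
    have h3 := Finset.card_sdiff_add_card_inter S T
    have h4 := Finset.card_sdiff_add_card_inter T S
    rw [Finset.inter_comm T S] at h4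
    omega
  have h5 : Odd ((symmDiff S T).card + 2 * (S ∩ T).card) ↔ Odd (S.card + T.card) := by rw [h1]
  rw [Nat.odd_add] at h5
  rw [Nat.odd_add] at h5
  have h6 : Even (2 * (S ∩ T).card) := even_two_mul _
  simp only [h6, iff_true] at h5
  rw [h5, ← Nat.not_odd_iff_even]
  tauto

theorem filter_symmDiff' {α : Type} (S T : Finset α) (p : α → Prop) :
    (symmDiff S T).filter p = symmDiff (S.filter p) (T.filter p) := by
  ext x
  simp only [mem_filter, Finset.mem_symmDiff]
  tauto

theorem dl_symmDiff (M : W → E → Prop) (A B : Finset W) :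
    dl M (symmDiff A B) = symmDiff (dl M A) (dl M B) := by
  ext e
  simp only [dl, mem_filter, mem_univ, true_and, Finset.mem_symmDiff]
  rw [filter_symmDiff', odd_card_symmDiff]
  tauto

theorem dl_empty (M : W → E → Prop) : dl M ∅ = ∅ := by
  ext e
  simp [dl]

theorem bd_sub_dl (M : W → E → Prop) (A : Finset W) : bd M A ⊆ dl M A := by
  intro e he
  simp only [bd, mem_filter, mem_univ, true_and] at he
  simp only [dl, mem_filter, mem_univ, true_and, he]
  exact odd_one

/-- product of signs -/
noncomputable def sp (s : W → ℝ) (A : Finset W) : ℝ := ∏ v ∈ A, s v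

theorem sp_eq (s : W → ℝ) (A : Finset W) : sp s A = ∏ v, (if v ∈ A then s v else 1) := by
  unfold sp
  rw [Finset.prod_ite_mem, Finset.univ_inter]

theorem sp_mul (s : W → ℝ) (hs : ∀ v, s v * s v = 1) (A B : Finset W) :
    sp s (symmDiff A B) = sp s A * sp s B := by
  rw [sp_eq, sp_eq, sp_eq, ← Finset.prod_mul_distrib]
  refine Finset.prod_congr rfl fun v _ => ?_
  by_cases h1 : v ∈ A <;> by_cases h2 : v ∈ B <;> simp [h1, h2, Finset.mem_symmDiff, hs]

/-- a graph with expansion -/
structure Exp (M : W → E → Prop) (h : ℕ) : Prop where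
  conn : ∀ A : Finset W, A.Nonempty → A ≠ univ → (bd M A).Nonempty
  med : ∀ A : Finset W, Fintype.card W < 4 * A.card → 2 * A.card ≤ Fintype.card W →
    h < (bd M A).card
  four : 4 ≤ Fintype.card W

variable {M : W → E → Prop} {h : ℕ} {s : W → ℝ}

/-- a small set of vertices -/
def Sm (A : Finset W) : Prop := 4 * A.card ≤ Fintype.card W

theorem Exp.inj (hx : Exp M h) {A B : Finset W} (hA : Sm A) (hB : Sm B)
    (hAB : dl M A = dl M B) : A = B := by
  have h1 : dl M (symmDiff A B) = ∅ := by
    rw [dl_symmDiff, hAB, symmDiff_self]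
    rfl
  by_contra hne
  have h2 : (symmDiff A B).Nonempty := by
    rw [Finset.nonempty_iff_ne_empty]
    intro h3
    rw [← Finset.bot_eq_empty, symmDiff_eq_bot] at h3
    exact hne h3
  have h3 : (symmDiff A B).card ≤ A.card + B.card := by
    refine (Finset.card_le_card (t := A ∪ B) ?_).trans (Finset.card_union_le _ _)
    intro x hx
    rw [Finset.mem_symmDiff] at hx
    rw [mem_union]
    tauto
  have h4 : symmDiff A B ≠ univ := by
    intro h5
    rw [h5, Finset.card_univ] at h3
    have h6 := hx.four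
    unfold Sm at hA hB
    omega
  obtain ⟨e, he⟩ := hx.conn _ h2 h4
  have := bd_sub_dl M _ he
  rw [h1] at this
  simp at this

/-- derivable sets of edges -/
def Dv (M : W → E → Prop) (S : Finset E) : Prop := ∃ A : Finset W, Sm A ∧ dl M A = S

/-- pseudo-expectation of a character -/
noncomputable def Ev (M : W → E → Prop) (s : W → ℝ) (S : Finset E) : ℝ :=
  if h : Dv M S then sp s h.choose else 0

theorem Exp.Ev_eq (hx : Exp M h) {A : Finset W} (hA : Sm A) : Ev M s (dl M A) = sp s A := by
  have h1 : Dv M (dl M A) := ⟨A, hA, rfl⟩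
  rw [Ev, dif_pos h1, hx.inj h1.choose_spec.1 hA h1.choose_spec.2]

theorem Ev_zero {S : Finset E} (hS : ¬ Dv M S) : Ev M s S = 0 := by
  rw [Ev, dif_neg hS]

theorem Sm_empty : Sm (∅ : Finset W) := by simp [Sm]

theorem Dv_empty : Dv M (∅ : Finset E) := ⟨∅, Sm_empty, dl_empty M⟩

theorem Exp.Ev_empty (hx : Exp M h) : Ev M s ∅ = 1 := by
  rw [← dl_empty M, hx.Ev_eq Sm_empty]
  simp [sp]

theorem card_symmDiff_le' {α : Type} (A B : Finset α) :
    (symmDiff A B).card ≤ A.card + B.card := by
  refine (Finset.card_le_card (t := A ∪ B) ?_).trans (Finset.card_union_le _ _)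
  intro x hx
  rw [Finset.mem_symmDiff] at hx
  rw [mem_union]
  tauto

/-- closure -/
theorem Exp.closed (hx : Exp M h) (hs : ∀ v, s v * s v = 1) {S T : Finset E} (hS : Dv M S)
    (hT : Dv M T) (hST : (symmDiff S T).card ≤ h) :
    Dv M (symmDiff S T) ∧ Ev M s (symmDiff S T) = Ev M s S * Ev M s T := by
  obtain ⟨A, hA, rfl⟩ := hS
  obtain ⟨B, hB, rfl⟩ := hT
  have h1 : Sm (symmDiff A B) := by
    unfold Sm
    by_contra hcon
    push Not at hcon
    have h2 := card_symmDiff_le' A B
    have h3 := hx.med (symmDiff A B) hcon (by unfold Sm at hA hB; omega)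
    have h4 := Finset.card_le_card (bd_sub_dl M (symmDiff A B))
    rw [dl_symmDiff] at h4
    omega
  rw [← dl_symmDiff, hx.Ev_eq h1, hx.Ev_eq hA, hx.Ev_eq hB, sp_mul s hs]
  exact ⟨⟨_, h1, rfl⟩, rfl⟩

/-- pseudo-expectation of a function -/
noncomputable def Pe (M : W → E → Prop) (s : W → ℝ) (f : (E → Bool) → ℝ) : ℝ :=
  ∑ S, fc f S * Ev M s S

theorem Exp.Pe_one (hx : Exp M h) : Pe M s (fun _ => (1 : ℝ)) = 1 := by
  unfold Pe
  simp only [fc_one, ite_mul, one_mul, zero_mul]
  rw [Finset.sum_ite_eq']
  simp [hx.Ev_empty]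

theorem Pe_add (f g : (E → Bool) → ℝ) :
    Pe M s (fun x => f x + g x) = Pe M s f + Pe M s g := by
  unfold Pe
  rw [← Finset.sum_add_distrib]
  exact Finset.sum_congr rfl fun S _ => by rw [fc_add]; ring

theorem Pe_smul (a : ℝ) (f : (E → Bool) → ℝ) :
    Pe M s (fun x => a * f x) = a * Pe M s f := by
  unfold Pe
  rw [Finset.mul_sum]
  exact Finset.sum_congr rfl fun S _ => by rw [fc_smul]; ring

theorem Pe_zero : Pe M s (fun _ => (0 : ℝ)) = 0 := by
  have := Pe_smul (M := M) (s := s) 0 (fun _ => (0 : ℝ))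
  simpa using this

/-- the class of a set -/
noncomputable def cls (M : W → E → Prop) (h' : ℕ) (S : Finset E) : Finset (Finset E) :=
  univ.filter (fun T => T.card ≤ h' ∧ Dv M (symmDiff S T))

/-- representative of a class -/
noncomputable def rp (c : Finset (Finset E)) : Finset E := if h : c.Nonempty then h.choose else ∅

/-- the sign -/
noncomputable def sig (M : W → E → Prop) (s : W → ℝ) (h' : ℕ) (S : Finset E) : ℝ :=
  Ev M s (symmDiff S (rp (cls M h' S)))

theorem mem_cls {h' : ℕ} {S T : Finset E} :
    T ∈ cls M h' S ↔ T.card ≤ h' ∧ Dv M (symmDiff S T) := by simp [cls]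

theorem rp_mem {h' : ℕ} {S : Finset E} (hS : S.card ≤ h') :
    rp (cls M h' S) ∈ cls M h' S := by
  have h1 : (cls M h' S).Nonempty := ⟨S, mem_cls.mpr ⟨hS, by
    rw [symmDiff_self]
    exact Dv_empty⟩⟩
  rw [rp, dif_pos h1]
  exact h1.choose_spec

theorem symmDiff_trans' (S T U : Finset E) :
    symmDiff (symmDiff S T) (symmDiff T U) = symmDiff S U := by
  rw [symmDiff_assoc, symmDiff_symmDiff_cancel_left]

theorem Exp.Dv_trans (hx : Exp M h) (hs : ∀ v, s v * s v = 1) {h' : ℕ} (hh : 2 * h' ≤ h)
    {S T U : Finset E} (hS : S.card ≤ h') (hU : U.card ≤ h') (h1 : Dv M (symmDiff S T))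
    (h2 : Dv M (symmDiff T U)) :
    Dv M (symmDiff S U) ∧
      Ev M s (symmDiff S U) = Ev M s (symmDiff S T) * Ev M s (symmDiff T U) := by
  have h3 := card_symmDiff_le' S U
  have h4 := hx.closed hs h1 h2 (by rw [symmDiff_trans']; omega)
  rwa [symmDiff_trans'] at h4

theorem Exp.cls_eq (hx : Exp M h) (hs : ∀ v, s v * s v = 1) {h' : ℕ} (hh : 2 * h' ≤ h)
    {S T : Finset E} (hS : S.card ≤ h') (hT : T.card ≤ h') :
    cls M h' S = cls M h' T ↔ Dv M (symmDiff S T) := by
  constructor
  · intro h1
    have h2 : T ∈ cls M h' S := by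
      rw [h1]
      refine mem_cls.mpr ⟨hT, ?_⟩
      rw [symmDiff_self]
      exact Dv_empty
    exact (mem_cls.mp h2).2
  · intro h1
    ext U
    rw [mem_cls, mem_cls]
    constructor
    · rintro ⟨h2, h3⟩
      refine ⟨h2, (hx.Dv_trans hs hh hT h2 (T := S) ?_ h3).1⟩
      rwa [symmDiff_comm]
    · rintro ⟨h2, h3⟩
      exact ⟨h2, (hx.Dv_trans hs hh hS h2 h1 h3).1⟩

theorem Exp.Ev_sig (hx : Exp M h) (hs : ∀ v, s v * s v = 1) {h' : ℕ} (hh : 2 * h' ≤ h)
    {S T : Finset E} (hS : S.card ≤ h') (hT : T.card ≤ h') :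
    Ev M s (symmDiff S T) =
      if cls M h' S = cls M h' T then sig M s h' S * sig M s h' T else 0 := by
  by_cases h1 : cls M h' S = cls M h' T
  · rw [if_pos h1]
    have h2 := mem_cls.mp (rp_mem (M := M) hS)
    have h3 := mem_cls.mp (rp_mem (M := M) hT)
    have h4 : Dv M (symmDiff (rp (cls M h' S)) T) := by
      rw [h1, symmDiff_comm]
      exact h3.2
    rw [(hx.Dv_trans hs hh hS hT h2.2 h4).2]
    unfold sig
    rw [h1, symmDiff_comm T]
  · rw [if_neg h1]
    refine Ev_zero fun h2 => h1 ?_
    exact (hx.cls_eq hs hh hS hT).mpr h2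

/-- the projection to a class -/
noncomputable def Ph (M : W → E → Prop) (s : W → ℝ) (h' : ℕ) (f : (E → Bool) → ℝ)
    (c : Finset (Finset E)) : ℝ :=
  ∑ S, if cls M h' S = c then fc f S * sig M s h' S else 0

theorem Exp.Pe_mul (hx : Exp M h) (hs : ∀ v, s v * s v = 1) {h' : ℕ} (hh : 2 * h' ≤ h)
    {f g : (E → Bool) → ℝ} (hf : dg f h') (hg : dg g h') :
    Pe M s (fun x => f x * g x) = ∑ c, Ph M s h' f c * Ph M s h' g c := by
  have h1 : Pe M s (fun x => f x * g x) =
      ∑ T, ∑ U, fc f T * fc g U * Ev M s (symmDiff T U) := by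
    unfold Pe
    simp only [fc_mul, Finset.sum_mul]
    rw [Finset.sum_comm]
    refine Finset.sum_congr rfl fun T _ => ?_
    refine Fintype.sum_equiv (Equiv.mk (fun S => symmDiff T S) (fun S => symmDiff T S)
      (fun S => symmDiff_symmDiff_cancel_left T S)
      (fun S => symmDiff_symmDiff_cancel_left T S)) _ _ fun S => ?_
    simp only [Equiv.coe_fn_mk, symmDiff_symmDiff_cancel_left]
  have h2 : ∀ T U : Finset E, fc f T * fc g U * Ev M s (symmDiff T U) =
      ∑ c, (if cls M h' T = c then fc f T * sig M s h' T else 0) *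
        (if cls M h' U = c then fc g U * sig M s h' U else 0) := by
    intro T U
    rw [Finset.sum_eq_single (cls M h' T)]
    · rw [if_pos rfl]
      by_cases hT : h' < T.card
      · rw [hf T hT]; ring
      by_cases hU : h' < U.card
      · rw [hg U hU]; simp
      rw [hx.Ev_sig hs hh (by omega) (by omega)]
      by_cases h3 : cls M h' T = cls M h' U
      · rw [if_pos h3, if_pos h3.symm]
        ring
      · rw [if_neg h3, if_neg (Ne.symm h3)]
        ring
    · intro c _ hc
      rw [if_neg (Ne.symm hc), zero_mul]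
    · intro h3
      exact absurd (mem_univ _) h3
  rw [h1]
  simp only [h2]
  unfold Ph
  simp only [Finset.sum_mul_sum]
  rw [Finset.sum_congr rfl fun T _ => Finset.sum_comm, Finset.sum_comm]

/-- the key property -/
theorem Exp.key (hx : Exp M h) (hs : ∀ v, s v * s v = 1) {h' : ℕ} (hh : 2 * h' ≤ h)
    {a g : (E → Bool) → ℝ} (ha : dg a h') (hg : dg g h') (hb : ∀ x, a x * a x = a x)
    (h0 : Pe M s a = 0) : Pe M s (fun x => g x * a x) = 0 := by
  have h1 : ∑ c, Ph M s h' a c * Ph M s h' a c = 0 := by
    rw [← hx.Pe_mul hs hh ha ha]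
    simp only [hb]
    exact h0
  have h2 : ∀ c, Ph M s h' a c = 0 := by
    intro c
    have h3 := (Finset.sum_eq_zero_iff_of_nonneg (fun c _ => mul_self_nonneg _)).mp h1 c
      (mem_univ c)
    exact mul_self_eq_zero.mp h3
  rw [hx.Pe_mul hs hh hg ha]
  refine Finset.sum_eq_zero fun c _ => ?_
  rw [h2, mul_zero]

/-- indicator function -/
noncomputable def ind (P : (E → Bool) → Prop) (y : E → Bool) : ℝ := if P y then 1 else 0

theorem Exp.pe_list (hx : Exp M h) (hs : ∀ v, s v * s v = 1) {h' d : ℕ} (hh : 2 * h' ≤ h)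
    (hd : d ≤ h') :
    ∀ (S : List ((E → Bool) → Prop)), (∀ R ∈ S, dg (ind R) d ∧
      Pe M s (fun y => 1 - ind R y) = 0) → ∀ (g : (E → Bool) → ℝ) (e : ℕ), dg g e →
      e + S.length * d ≤ h' → (∀ y, (∀ R ∈ S, R y) → g y = 0) → Pe M s g = 0
  | [], _, g, e, _, _, h0 => by
      have : g = fun _ => (0 : ℝ) := by
        funext y
        exact h0 y (by simp)
      rw [this]
      exact Pe_zero
  | R :: S, hS, g, e, hg, he, h0 => by
      have hR := hS R (by simp)
      rw [List.length_cons] at he
      have he' : e + d + S.length * d ≤ h' := by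
        calc e + d + S.length * d = e + (S.length + 1) * d := by ring
          _ ≤ h' := he
      have h1 := Exp.pe_list hx hs hh hd S (fun R' h => hS R' (List.mem_cons_of_mem _ h))
        (fun y => g y * ind R y) (e + d) (hg.mul hR.1) he' (by
          intro y hy
          by_cases hRy : R y
          · have : g y = 0 := h0 y (by
              intro R' hR'
              rcases List.mem_cons.mp hR' with rfl | h2
              · exact hRy
              · exact hy R' h2)
            rw [this, zero_mul]
          · simp [ind, hRy])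
      have h2 : Pe M s (fun y => g y * (1 - ind R y)) = 0 := by
        refine hx.key hs hh ?_ (hg.mono (by omega)) ?_ hR.2
        · exact (dg_one h').sub (hR.1.mono hd)
        · intro y
          unfold ind
          split <;> norm_num
      have h3 : g = fun y => g y * ind R y + g y * (1 - ind R y) := by
        funext y
        ring
      rw [h3, Pe_add, h1, h2, add_zero]

theorem chi_flip (S : Finset E) (y : E → Bool) (e : E) :
    chi S (T9h49.RK.flip y e) = if e ∈ S then - chi S y else chi S y := by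
  have h1 : chi S (T9h49.RK.flip y e) = ∏ v, (if v ∈ S then sg (T9h49.RK.flip y e v) else 1) := chi_eq S _
  have h2 : chi S y = ∏ v, (if v ∈ S then sg (y v) else 1) := chi_eq S _
  rw [h1, h2, ← Finset.mul_prod_erase univ _ (mem_univ e),
    ← Finset.mul_prod_erase univ (fun v => if v ∈ S then sg (y v) else 1) (mem_univ e)]
  have h3 : ∏ x ∈ univ.erase e, (if x ∈ S then sg (T9h49.RK.flip y e x) else 1) =
      ∏ x ∈ univ.erase e, (if x ∈ S then sg (y x) else 1) := by
    refine Finset.prod_congr rfl fun x hx => ?_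
    rw [flip_ne _ (Finset.ne_of_mem_erase hx)]
  rw [h3, flip_self]
  by_cases he : e ∈ S
  · simp only [he, if_true]
    cases y e <;> simp [sg]
  · simp only [he, if_false]

/-- the sign of the constraint -/
noncomputable def sgn (Cn : W → (E → Bool) → Prop) (v : W) : ℝ :=
  if Cn v (fun _ => false) then 1 else -1

theorem sgn_mul_self (Cn : W → (E → Bool) → Prop) (v : W) : sgn Cn v * sgn Cn v = 1 := by
  unfold sgn
  split <;> norm_num

theorem cn_iff (Cn : W → (E → Bool) → Prop)
    (hflip : ∀ v e y, Cn v (T9h49.RK.flip y e) ↔ (if M v e then ¬ Cn v y else Cn v y)) (v : W) :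
    ∀ y, Cn v y ↔ chi (dl M {v}) y = sgn Cn v := by
  have h1 : ∀ T : Finset E, Cn v (fun e => decide (e ∈ T)) ↔
      chi (dl M {v}) (fun e => decide (e ∈ T)) = sgn Cn v := by
    intro T
    induction T using Finset.induction_on with
    | empty =>
      have e1 : (fun e : E => decide (e ∈ (∅ : Finset E))) = fun _ => false := by
        funext e; simp
      rw [e1]
      have e2 : chi (dl M {v}) (fun _ => false) = 1 := by simp [chi, sg]
      rw [e2, sgn]
      split <;> rename_i h <;> simp [h] <;> norm_num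
    | insert e T he ih =>
      have e1 : (fun x : E => decide (x ∈ insert e T)) = T9h49.RK.flip (fun x => decide (x ∈ T)) e := by
        funext x
        by_cases hx : x = e
        · subst hx
          rw [flip_self]
          simp [he]
        · rw [flip_ne _ hx]
          simp [hx]
      rw [e1, hflip, chi_flip]
      have e2 : e ∈ dl M {v} ↔ M v e := by
        simp only [dl, mem_filter, mem_univ, true_and, Finset.filter_singleton]
        by_cases hM : M v e <;> simp [hM]
      by_cases hM : M v e
      · rw [if_pos hM, if_pos (e2.mpr hM), ih]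
        have h3 := chi_dich (dl M {v}) (fun x => decide (x ∈ T))
        have h4 : sgn Cn v = 1 ∨ sgn Cn v = -1 := by
          unfold sgn
          split
          · left; rfl
          · right; rfl
        rcases h3 with h3 | h3 <;> rcases h4 with h4 | h4 <;> rw [h3, h4] <;> norm_num
      · rw [if_neg hM, if_neg (fun h => hM (e2.mp h)), ih]
  intro y
  have e1 : y = fun e => decide (e ∈ univ.filter (fun e => y e = true)) := by
    funext e
    simp
  rw [e1]
  exact h1 _

theorem Exp.Sm_singleton (hx : Exp M h) (v : W) : Sm ({v} : Finset W) := by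
  have := hx.four
  simp only [Sm, card_singleton]
  omega

theorem Exp.Ev_star (hx : Exp M h) (hs : ∀ v, s v * s v = 1) (v : W) {S : Finset E}
    (h1 : S.card ≤ h) (h2 : (symmDiff S (dl M {v})).card ≤ h) :
    Ev M s (symmDiff S (dl M {v})) = s v * Ev M s S := by
  have hd : Dv M (dl M {v}) := ⟨_, hx.Sm_singleton v, rfl⟩
  have he : Ev M s (dl M {v}) = s v := by
    rw [hx.Ev_eq (hx.Sm_singleton v)]
    simp [sp]
  by_cases hS : Dv M S
  · rw [(hx.closed hs hS hd h2).2, he]
    ring
  · rw [Ev_zero hS, mul_zero]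
    refine Ev_zero fun h3 => hS ?_
    have h4 := (hx.closed hs h3 hd (by rwa [symmDiff_symmDiff_cancel_right])).1
    rwa [symmDiff_symmDiff_cancel_right] at h4

theorem Exp.pe_axiom (hx : Exp M h) (hs : ∀ v, s v * s v = 1) (v : W) {d : ℕ}
    (hv : (dl M {v}).card + d ≤ h) {a : (E → Bool) → ℝ} (ha : dg a d)
    (h0 : ∀ y, chi (dl M {v}) y = s v → a y = 0) : Pe M s a = 0 := by
  have h1 : a = fun y => (- s v) * (chi (dl M {v}) y * a y) := by
    funext y
    have h2 : s v = 1 ∨ s v = -1 := by
      have h3 : (s v - 1) * (s v + 1) = 0 := by nlinarith [hs v]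
      rcases mul_eq_zero.mp h3 with h4 | h4
      · left; linarith
      · right; linarith
    rcases chi_dich (dl M {v}) y with h3 | h3 <;> rcases h2 with h2 | h2
    · rw [h0 y (by rw [h3, h2])]; ring
    · rw [h3, h2]; ring
    · rw [h3, h2]; ring
    · rw [h0 y (by rw [h3, h2])]; ring
  have h2 : Pe M s (fun y => chi (dl M {v}) y * a y) = s v * Pe M s a := by
    unfold Pe
    rw [Finset.mul_sum]
    simp only [fc_chi_mul]
    refine Fintype.sum_equiv (Equiv.mk (fun S => symmDiff (dl M {v}) S)
      (fun S => symmDiff (dl M {v}) S)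
      (fun S => symmDiff_symmDiff_cancel_left _ S)
      (fun S => symmDiff_symmDiff_cancel_left _ S)) _ _ fun S => ?_
    simp only [Equiv.coe_fn_mk]
    by_cases h3 : d < (symmDiff (dl M {v}) S).card
    · rw [ha _ h3]; ring
    · have h4 : S = symmDiff (symmDiff (dl M {v}) S) (dl M {v}) := by
        rw [symmDiff_comm (dl M {v}) S, symmDiff_symmDiff_cancel_right]
      have h5 : S.card ≤ h := by
        have h6 := card_symmDiff_le' (symmDiff (dl M {v}) S) (dl M {v})
        rw [← h4] at h6
        omega
      have h6 := hx.Ev_star hs v (S := symmDiff (dl M {v}) S) (by omega) (by rwa [← h4])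
      rw [← h4] at h6
      rw [h6]
      ring
  have h3 : Pe M s a = (- s v) * (s v * Pe M s a) := by
    conv_lhs => rw [h1]
    rw [Pe_smul, h2]
  have h4 : Pe M s a = - Pe M s a := by
    calc Pe M s a = (- s v) * (s v * Pe M s a) := h3
      _ = - (s v * s v) * Pe M s a := by ring
      _ = _ := by rw [hs v]; ring
  linarith

/-- **No refutation with lines of low degree.** -/
theorem no_ref (Cn : W → (E → Bool) → Prop)
    (hflip : ∀ v e y, Cn v (T9h49.RK.flip y e) ↔ (if M v e then ¬ Cn v y else Cn v y))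
    (hx : Exp M h) (r d : ℕ) (hd : 2 * ((r + 1) * d) ≤ h)
    (hv : ∀ v, (dl M {v}).card + d ≤ h) (l : List ((E → Bool) → Prop))
    (hl : Chain Cn r l) (hdeg : ∀ P ∈ l, dg (ind P) d) : ∀ P ∈ l, ∃ y, P y := by
  have hs : ∀ v, sgn Cn v * sgn Cn v = 1 := sgn_mul_self Cn
  have hall : ∀ l', Chain Cn r l' → (∀ P ∈ l', dg (ind P) d) → ∀ P ∈ l',
      Pe M (sgn Cn) (fun y => 1 - ind P y) = 0 := by
    intro l' hl'
    induction hl' with
    | nil => intro _ P hP; simp at hP
    | ax v hi _ ih =>
      intro hdg P hP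
      rcases List.mem_cons.mp hP with rfl | hP
      · refine hx.pe_axiom hs v (hv v) ((dg_one d).sub (hdg P (by simp))) ?_
        intro y hy
        have h1 : P y := hi y (by
          intro u hu
          rw [mem_singleton] at hu
          subst hu
          exact (cn_iff Cn hflip u y).mpr hy)
        simp [ind, h1]
      · exact ih (fun P h => hdg P (List.mem_cons_of_mem _ h)) P hP
    | @inf l' P S h1 h2 h3 _ ih =>
      intro hdg R hR
      have ih' := ih (fun P h => hdg P (List.mem_cons_of_mem _ h))
      rcases List.mem_cons.mp hR with rfl | hR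
      · refine hx.pe_list hs (h' := (r + 1) * d) (d := d) hd (by nlinarith) S
          (fun Q hQ => ⟨hdg Q (List.mem_cons_of_mem _ (h2 Q hQ)), ih' Q (h2 Q hQ)⟩)
          (fun y => 1 - ind R y) d ((dg_one d).sub (hdg R (by simp))) ?_ ?_
        · have : S.length * d ≤ r * d := Nat.mul_le_mul_right d h1
          calc d + S.length * d ≤ d + r * d := by omega
            _ = _ := by ring
        · intro y hy
          have h4 : R y := h3 y hy
          simp [ind, h4]
      · exact ih' R hR
  intro P hP
  by_contra hcon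
  push Not at hcon
  have h1 := hall l hl hdeg P hP
  have h2 : (fun y => 1 - ind P y) = fun _ => (1 : ℝ) := by
    funext y
    simp [ind, hcon y]
  rw [h2, hx.Pe_one] at h1
  exact one_ne_zero h1

end Pool.Agent.T9h90.FT
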