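import Pool.Agent.T9h90.FT.Main

/-!
# One sequence for all systems
-/

set_option autoImplicit false
set_option linter.unusedSectionVars false

namespace Pool.Agent.T9h90.FT

open Finset Classical

open Pool.Agent.T9h49.RK

theorem growth (k : ℕ) {ε : ℝ} (hε : 0 < ε) :
    ∃ M : ℕ, ∀ n : ℕ, M ≤ n → (1 + (n : ℝ) / ε) ^ k < (2 : ℝ) ^ (ε * n) := by
  have h1 := tendsto_pow_const_mul_const_pow_of_abs_lt_one (2 * k)
    (r := (2 : ℝ) ^ (-ε)) (by
      rw [abs_of_pos (Real.rpow_pos_of_pos (by norm_num) _)]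
      exact Real.rpow_lt_one_of_one_lt_of_neg (by norm_num) (by linarith))
  obtain ⟨M, hM⟩ := Filter.eventually_atTop.mp
    (h1.eventually (gt_mem_nhds (show (0 : ℝ) < 1 by norm_num)))
  obtain ⟨M', hM'⟩ := exists_nat_gt (1 + 1 / ε)
  refine ⟨max 1 (max M M'), fun n hn => ?_⟩
  have h2 := hM n (((le_max_left _ _).trans (le_max_right _ _)).trans hn)
  rw [← Real.rpow_natCast ((2 : ℝ) ^ (-ε)) n, ← Real.rpow_mul (by norm_num),
    show -ε * (n : ℝ) = -(ε * n) by ring, Real.rpow_neg (by norm_num),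
    ← div_eq_mul_inv, div_lt_one (Real.rpow_pos_of_pos (by norm_num) _)] at h2
  refine lt_of_le_of_lt ?_ h2
  rw [pow_mul]
  refine pow_le_pow_left₀ (by positivity) ?_ k
  have h3 : (1 : ℝ) ≤ n := by exact_mod_cast (le_max_left _ _).trans hn
  have h4 : (M' : ℝ) ≤ n := by
    exact_mod_cast ((le_max_right _ _).trans (le_max_right _ _)).trans hn
  have h5 : 1 + (n : ℝ) / ε ≤ (1 + 1 / ε) * n := by
    rw [add_mul, one_mul, div_mul_eq_mul_div, one_mul]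
    linarith
  refine h5.trans ?_
  rw [sq]
  exact mul_le_mul_of_nonneg_right (by linarith) (by linarith)

/-- the class of admissible lines -/
theorem seq (c : ℕ → ℝ) (hmain : ∀ (R K : ℕ) (γ : ℝ), 0 < γ → ∃ ε : ℝ, 0 < ε ∧
    ∀ m : ℕ, ∃ n : ℕ, m ≤ n ∧ ∃ F : List PForm, (∀ A ∈ F, A.IsClause ∧ A.vars ⊆ range n) ∧
    Unsat F ∧ ε * sizeL F ≤ n ∧
    ∀ r ≤ R, ∀ Φ : Set Rule, (∀ ρ ∈ Φ, ρ.Sound ∧ ρ.prem.length ≤ r) → ∀ π : List PForm,
      Refutes Φ F π →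
      (∀ A ∈ π, tailW n A (c r * n) ≤ 2 ^ (-(γ * n)) ∨ ∃ H : Finset ℕ,
        (H.card : ℝ) ≤ c r * n ∧ ∑ i ∈ range n \ H, A.occ i ≤ K * n) →
      (2 : ℝ) ^ (ε * n) ≤ π.length) :
    ∃ (n : ℕ → ℕ) (F : ℕ → List PForm), (∀ i, i ≤ n i ∧
      (∀ A ∈ F i, A.IsClause ∧ A.vars ⊆ range (n i)) ∧ Unsat (F i)) ∧
    ∀ (Φ : Set Rule) (r : ℕ), (∀ ρ ∈ Φ, ρ.Sound ∧ ρ.prem.length ≤ r) →
      ∀ (K k : ℕ) (γ : ℝ), 0 < γ → ∃ i0, ∀ i, i0 ≤ i → ∀ π : List PForm,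
      Refutes Φ (F i) π →
      (∀ A ∈ π, tailW (n i) A (c r * n i) ≤ 2 ^ (-(γ * n i)) ∨ ∃ H : Finset ℕ,
        (H.card : ℝ) ≤ c r * n i ∧ ∑ j ∈ range (n i) \ H, A.occ j ≤ K * n i) →
      sizeL (F i) ^ k < π.length := by
  have h1 := fun i : ℕ => hmain i i (1 / ((i : ℝ) + 1)) (by positivity)
  choose ε hε hF using h1
  choose M hM using fun i : ℕ => growth i (hε i)
  choose n hn F hF1 hF2 hF3 hF4 using fun i : ℕ => hF i (max i (M i))
  refine ⟨n, F, fun i => ⟨(le_max_left _ _).trans (hn i), hF1 i, hF2 i⟩, ?_⟩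
  intro Φ r hΦ K k γ hγ
  obtain ⟨g, hg⟩ := exists_nat_ge (1 / γ)
  refine ⟨max (max r g) (max K k), fun i hi π hπ hlines => ?_⟩
  have h2 : r ≤ i := ((le_max_left _ _).trans (le_max_left _ _)).trans hi
  have h3 : g ≤ i := ((le_max_right _ _).trans (le_max_left _ _)).trans hi
  have h4 : K ≤ i := ((le_max_left _ _).trans (le_max_right _ _)).trans hi
  have h5 : k ≤ i := ((le_max_right _ _).trans (le_max_right _ _)).trans hi
  have h6 := hF4 i r h2 Φ hΦ π hπ (fun A hA => by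
    rcases hlines A hA with h | ⟨H, hH1, hH2⟩
    · left
      refine h.trans (Real.rpow_le_rpow_of_exponent_le (by norm_num) ?_)
      have h7 : 1 / ((i : ℝ) + 1) ≤ γ := by
        rw [div_le_iff₀ hγ] at hg
        rw [div_le_iff₀ (by positivity)]
        have h8 : (g : ℝ) ≤ i := by exact_mod_cast h3
        nlinarith
      have h8 : 1 / ((i : ℝ) + 1) * (n i : ℝ) ≤ γ * n i :=
        mul_le_mul_of_nonneg_right h7 (Nat.cast_nonneg _)
      linarith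
    · right
      exact ⟨H, hH1, hH2.trans (Nat.mul_le_mul_right _ h4)⟩)
  have h7 := hM i (n i) ((le_max_right _ _).trans (hn i))
  have h8 : (sizeL (F i) : ℝ) ≤ 1 + (n i : ℝ) / ε i := by
    have h9 : (sizeL (F i) : ℝ) ≤ (n i : ℝ) / ε i := by
      rw [le_div_iff₀ (hε i), mul_comm]
      exact hF3 i
    linarith
  have h9 : (1 : ℝ) ≤ 1 + (n i : ℝ) / ε i := by
    have : 0 ≤ (n i : ℝ) / ε i := div_nonneg (Nat.cast_nonneg _) (hε i).le
    linarith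
  have h10 : ((sizeL (F i) ^ k : ℕ) : ℝ) < (π.length : ℝ) := by
    push_cast
    calc (sizeL (F i) : ℝ) ^ k ≤ (1 + (n i : ℝ) / ε i) ^ k :=
          pow_le_pow_left₀ (Nat.cast_nonneg _) h8 k
      _ ≤ (1 + (n i : ℝ) / ε i) ^ i := pow_le_pow_right₀ h9 h5
      _ < _ := h7
      _ ≤ _ := h6
  exact_mod_cast h10

end Pool.Agent.T9h90.FT
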