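import Pool.Agent.T9h90.FT.Restr
import Pool.Agent.T9h90.FT.Pseudo
import Pool.Agent.T9h49.RK.Heavy

/-!
# The Fourier tail of short formulas
-/

set_option autoImplicit false
set_option linter.unusedSectionVars false

namespace Pool.Agent.T9h90.FT

open Finset Classical

open Pool.Agent.T9h49.RK (Cf asg Fm rel mem_rel line_bound)

/-- the Boolean function of a formula -/
noncomputable def bf {V : Type} (L : Fm V) (x : V → Bool) : ℝ := if L.ev x = true then 1 else 0

theorem bf_bool {V : Type} (L : Fm V) (x : V → Bool) : bf L x = 0 ∨ bf L x = 1 := by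
  unfold bf
  split
  · right; rfl
  · left; rfl

theorem bf_sq {V : Type} (L : Fm V) (x : V → Bool) : bf L x ^ 2 ≤ 1 := by
  rcases bf_bool L x with h | h <;> rw [h] <;> norm_num

section

variable {E : Type} [Fintype E]

theorem fc_irrel (g : (E → Bool) → ℝ) (e : E) (T : Finset E) (he : e ∈ T)
    (hg : ∀ y, g (T9h49.RK.flip y e) = g y) : fc g T = 0 := by
  have h1 : ∑ x, g x * chi T x = ∑ x, - (g x * chi T x) := by
    refine Fintype.sum_equiv (Equiv.mk (fun x => T9h49.RK.flip x e) (fun x => T9h49.RK.flip x e)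
      (fun x => T9h49.RK.flip_flip x e) (fun x => T9h49.RK.flip_flip x e)) _ _ fun x => ?_
    simp only [Equiv.coe_fn_mk]
    rw [hg, chi_flip, if_pos he]
    ring
  rw [Finset.sum_neg_distrib] at h1
  unfold fc
  have h2 : ∑ x, g x * chi T x = 0 := by linarith
  rw [h2, zero_div]

end

section blocks

variable {E : Type} {q : ℕ} [Fintype E]

theorem sum_one (e : E) (h : Fin q → ℝ) :
    (q : ℝ) * ∑ u : E → Fin q, h (u e) = Fintype.card (E → Fin q) * ∑ b, h b := by
  have h1 : ∀ u : E → Fin q, h (u e) =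
      ∏ e', (fun (e' : E) (b : Fin q) => if e' = e then h b else 1) e' (u e') := by
    intro u
    simp only
    rw [Finset.prod_ite_eq' univ e (fun e' => h (u e'))]
    simp
  rw [Finset.sum_congr rfl (fun u _ => h1 u),
    sum_prod_fn (fun (e' : E) (b : Fin q) => if e' = e then h b else 1),
    ← Finset.mul_prod_erase univ _ (mem_univ e)]
  have h2 : ∏ x ∈ univ.erase e, ∑ b : Fin q, (if x = e then h b else 1) =
      (q : ℝ) ^ (Fintype.card E - 1) := by
    rw [Finset.prod_congr rfl (fun x hx => by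
      rw [Finset.sum_congr rfl (fun b _ => if_neg (Finset.ne_of_mem_erase hx))] :
      ∀ x ∈ univ.erase e, ∑ b : Fin q, (if x = e then h b else (1 : ℝ)) = ∑ b : Fin q, (1 : ℝ))]
    rw [Finset.prod_const, Finset.card_erase_of_mem (mem_univ e), Finset.card_univ]
    simp
  rw [h2]
  simp only [if_true]
  rw [Fintype.card_fun, Fintype.card_fin]
  push_cast
  obtain ⟨m, hm⟩ : ∃ m, Fintype.card E = m + 1 := by
    have : 0 < Fintype.card E := Fintype.card_pos_iff.mpr ⟨e⟩
    exact ⟨Fintype.card E - 1, by omega⟩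
  rw [hm, Nat.add_sub_cancel, pow_succ]
  ring

theorem sum_liv (S : Finset (E × Fin q)) :
    (q : ℝ) * ∑ u : E → Fin q, ((liv u S).card : ℝ) = Fintype.card (E → Fin q) * S.card := by
  have h1 : ∀ u : E → Fin q, ((liv u S).card : ℝ) = ∑ e, (if (e, u e) ∈ S then 1 else 0) := by
    intro u
    unfold liv
    rw [Finset.card_filter]
    push_cast
    rfl
  rw [Finset.sum_congr rfl (fun u _ => h1 u), Finset.sum_comm, Finset.mul_sum,
    ← sum_card, Finset.mul_sum]
  refine Finset.sum_congr rfl fun e _ => ?_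
  rw [sum_one e (fun b => if (e, b) ∈ S then (1 : ℝ) else 0), Finset.card_filter]
  push_cast
  rfl

theorem liv_large (hq : 0 < q) (hE : 0 < Fintype.card E) (S : Finset (E × Fin q)) {c : ℝ}
    (hc : 0 ≤ c) (hS : c * (q * Fintype.card E) ≤ S.card) :
    c / 2 * Fintype.card (E → Fin q) ≤
      ((univ.filter (fun u : E → Fin q =>
        c / 2 * Fintype.card E ≤ ((liv u S).card : ℝ))).card : ℝ) := by
  have hq0 : (0 : ℝ) < q := by exact_mod_cast hq
  have hE0 : (0 : ℝ) < Fintype.card E := by exact_mod_cast hE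
  set X : ℝ := ((univ.filter (fun u : E → Fin q =>
        c / 2 * Fintype.card E ≤ ((liv u S).card : ℝ))).card : ℝ) with hX
  set N : ℝ := (Fintype.card (E → Fin q) : ℝ) with hN
  have hN0 : 0 ≤ N := Nat.cast_nonneg _
  have h1 := sum_liv S
  have h2 : ∑ u : E → Fin q, ((liv u S).card : ℝ) ≤
      X * Fintype.card E + N * (c / 2 * Fintype.card E) := by
    have h3 : ∀ u : E → Fin q, ((liv u S).card : ℝ) ≤
        (if c / 2 * Fintype.card E ≤ ((liv u S).card : ℝ) then (Fintype.card E : ℝ) else 0) +
          c / 2 * Fintype.card E := by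
      intro u
      by_cases hu : c / 2 * Fintype.card E ≤ ((liv u S).card : ℝ)
      · rw [if_pos hu]
        have h4 : ((liv u S).card : ℝ) ≤ Fintype.card E := by
          exact_mod_cast Finset.card_le_univ _
        have : 0 ≤ c / 2 * (Fintype.card E : ℝ) := by positivity
        linarith
      · rw [if_neg hu, zero_add]
        exact (not_le.mp hu).le
    calc ∑ u : E → Fin q, ((liv u S).card : ℝ) ≤ ∑ u : E → Fin q,
          ((if c / 2 * Fintype.card E ≤ ((liv u S).card : ℝ) then (Fintype.card E : ℝ) else 0) +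
          c / 2 * Fintype.card E) := Finset.sum_le_sum fun u _ => h3 u
      _ = _ := by
          rw [Finset.sum_add_distrib, Finset.sum_const, Finset.card_univ, nsmul_eq_mul,
            ← Finset.sum_filter, Finset.sum_const, nsmul_eq_mul]
  have h3 : N * (c * (q * Fintype.card E)) ≤ q * (X * Fintype.card E +
      N * (c / 2 * Fintype.card E)) := by
    calc N * (c * (q * Fintype.card E)) ≤ N * S.card := mul_le_mul_of_nonneg_left hS hN0
      _ = q * ∑ u : E → Fin q, ((liv u S).card : ℝ) := h1.symm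
      _ ≤ _ := mul_le_mul_of_nonneg_left h2 hq0.le
  have h4 : (q * Fintype.card E : ℝ) * (c / 2 * N) ≤ (q * Fintype.card E : ℝ) * X := by
    nlinarith
  exact le_of_mul_le_mul_left h4 (by positivity)

theorem fc_not_rel (L : Fm (E × Fin q)) (w : Cf E q) (T : Finset E) (hT : ¬ T ⊆ rel L w) :
    fc (fun y => bf L (asg w y)) T = 0 := by
  rw [Finset.not_subset] at hT
  obtain ⟨e, he, hr⟩ := hT
  refine fc_irrel _ e T he fun y => ?_
  have h1 : L.ev (asg w y) = L.ev (asg w (T9h49.RK.flip y e)) := by
    by_contra hne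
    exact hr (mem_rel.mpr ⟨y, hne⟩)
  simp only [bf, h1]

theorem Wt_rel (hq : 0 < q) (hE : 0 < Fintype.card E) (L : Fm (E × Fin q)) {c : ℝ}
    (hc : 0 < c) :
    c / 2 * Fintype.card (Cf E q) * Wt (c * (q * Fintype.card E)) (bf L) ≤
      ((univ.filter (fun w : Cf E q => c / 2 * Fintype.card E ≤ ((rel L w).card : ℝ))).card : ℝ)
      := by
  have h1 : ∑ w : Cf E q, ∑ T : Finset E, (if c / 2 * Fintype.card E ≤ (T.card : ℝ) then
      (fc (fun y => bf L (asg w y)) T) ^ 2 else 0) =
      2 ^ Fintype.card (E × Fin q) * ∑ S, fc (bf L) S ^ 2 * ((univ.filter (fun u : E → Fin q =>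
        c / 2 * Fintype.card E ≤ ((liv u S).card : ℝ))).card : ℝ) := by
    convert block_tail (bf L) (fun T => c / 2 * Fintype.card E ≤ (T.card : ℝ))
  have h2 : ∑ w : Cf E q, ∑ T : Finset E, (if c / 2 * Fintype.card E ≤ (T.card : ℝ) then
      (fc (fun y => bf L (asg w y)) T) ^ 2 else 0) ≤
      ((univ.filter (fun w : Cf E q =>
        c / 2 * Fintype.card E ≤ ((rel L w).card : ℝ))).card : ℝ) := by
    rw [Finset.card_filter]
    push_cast
    refine Finset.sum_le_sum fun w _ => ?_
    split
    · refine le_trans (Finset.sum_le_sum (g := fun T => (fc (fun y => bf L (asg w y)) T) ^ 2)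
        fun T _ => ?_) (sum_fc_sq_le (fun y => bf_sq L _))
      split
      · exact le_rfl
      · positivity
    · rename_i hw
      refine le_of_eq (Finset.sum_eq_zero fun T _ => ?_)
      split
      · rename_i hT
        rw [fc_not_rel L w T, zero_pow (by norm_num)]
        intro hsub
        refine hw (hT.trans ?_)
        exact_mod_cast Finset.card_le_card hsub
      · rfl
  refine le_trans ?_ h2
  rw [h1, card_Cf]
  unfold Wt
  calc c / 2 * (2 ^ Fintype.card (E × Fin q) * (Fintype.card (E → Fin q) : ℝ)) *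
      ∑ S, (if c * (q * Fintype.card E) ≤ (S.card : ℝ) then fc (bf L) S ^ 2 else 0) =
      2 ^ Fintype.card (E × Fin q) * ∑ S, (if c * (q * Fintype.card E) ≤ (S.card : ℝ) then
        fc (bf L) S ^ 2 * (c / 2 * (Fintype.card (E → Fin q) : ℝ)) else 0) := by
        rw [Finset.mul_sum, Finset.mul_sum]
        refine Finset.sum_congr rfl fun S _ => ?_
        split
        · ring
        · ring
    _ ≤ _ := by
        refine mul_le_mul_of_nonneg_left (Finset.sum_le_sum fun S _ => ?_) (by positivity)
        split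
        · rename_i hS
          exact mul_le_mul_of_nonneg_left (liv_large hq hE S hc.le hS) (by positivity)
        · positivity

end blocks

/-- formulas with few occurrences of each variable -/
theorem light_tail (k : ℕ) {c : ℝ} (hc : 0 < c) :
    ∃ q : ℕ, 0 < q ∧ ∃ δ : ℝ, 0 < δ ∧ ∃ C : ℝ, 0 < C ∧ ∃ n0 : ℕ,
      ∀ (E : Type) [Fintype E], n0 ≤ Fintype.card E → ∀ L : Fm (E × Fin q), L.nsp = 0 →
        (∀ v, L.oc v ≤ k) →
        Wt (c * (q * Fintype.card E)) (bf L) ≤ C * Real.exp (-δ * Fintype.card E) := by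
  obtain ⟨q, hq, δ, hδ, C, hC, n0, hmain⟩ := line_bound k (c := c / 2) (by positivity)
  refine ⟨q, hq, δ, hδ, 2 / c * C, by positivity, max n0 1, ?_⟩
  intro E _ hE L hL hk
  have h1 := hmain E ((le_max_left _ _).trans hE) L hL hk
  have h2 := Wt_rel hq (lt_of_lt_of_le one_pos ((le_max_right n0 1).trans hE)) L hc
  have h3 := h2.trans h1
  have hcf : (0 : ℝ) < Fintype.card (Cf E q) := by
    have : Nonempty (Fin q) := ⟨⟨0, hq⟩⟩
    exact_mod_cast Fintype.card_pos
  have h4 : (Fintype.card (Cf E q) : ℝ) * (c / 2 * Wt (c * (q * Fintype.card E)) (bf L)) ≤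
      Fintype.card (Cf E q) * (C * Real.exp (-δ * Fintype.card E)) := by
    refine le_trans (le_of_eq (by ring)) h3
  have h5 := le_of_mul_le_mul_left h4 hcf
  calc Wt (c * (q * Fintype.card E)) (bf L) =
      2 / c * (c / 2 * Wt (c * (q * Fintype.card E)) (bf L)) := by field_simp
    _ ≤ 2 / c * (C * Real.exp (-δ * Fintype.card E)) :=
        mul_le_mul_of_nonneg_left h5 (by positivity)
    _ = _ := by ring

section rename

variable {V V' : Type}

/-- renaming the variables -/
def ren (e : V → V') : Fm V → Fm V'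
  | .var v => .var (e v)
  | .cst b => .cst b
  | .sp => .sp
  | .neg A => .neg (ren e A)
  | .conj A B => .conj (ren e A) (ren e B)
  | .disj A B => .disj (ren e A) (ren e B)

theorem ev_ren (e : V → V') (x : V' → Bool) (A : Fm V) :
    (ren e A).ev x = A.ev (fun v => x (e v)) := by
  induction A with
  | var v => rfl
  | cst b => rfl
  | sp => rfl
  | neg A ih => simp only [ren, Fm.ev, ih]
  | conj A B iA iB => simp only [ren, Fm.ev, iA, iB]
  | disj A B iA iB => simp only [ren, Fm.ev, iA, iB]

theorem nsp_ren (e : V → V') (A : Fm V) : (ren e A).nsp = A.nsp := by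
  induction A with
  | var v => rfl
  | cst b => rfl
  | sp => rfl
  | neg A ih => simpa only [ren, Fm.nsp] using ih
  | conj A B iA iB => simp only [ren, Fm.nsp, iA, iB]
  | disj A B iA iB => simp only [ren, Fm.nsp, iA, iB]

theorem oc_ren [DecidableEq V] [DecidableEq V'] (e : V ≃ V') (v : V') (A : Fm V) : (ren e A).oc v = A.oc (e.symm v) := by
  induction A with
  | var w =>
    simp only [ren, Fm.oc]
    by_cases h : e w = v
    · rw [if_pos h, if_pos]
      rw [← h, Equiv.symm_apply_apply]
    · rw [if_neg h, if_neg]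
      intro h1
      apply h
      rw [h1, Equiv.apply_symm_apply]
  | cst b => rfl
  | sp => rfl
  | neg A ih => simpa only [ren, Fm.oc] using ih
  | conj A B iA iB => simp only [ren, Fm.oc, iA, iB]
  | disj A B iA iB => simp only [ren, Fm.oc, iA, iB]

end rename

theorem Wt_ren {V E : Type} {q : ℕ} [Fintype V] [Fintype E] (e : V ≃ E × Fin q) (L : Fm V)
    (t : ℝ) : Wt t (bf L) = Wt t (bf (ren e L)) := by
  rw [← Wt_equiv e]
  congr 1
  funext x
  simp only [bf, ev_ren, Equiv.symm_apply_apply]

/-- the variables in `H` are replaced by constants -/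
theorem bf_setc {V : Type} (H : Finset V) (z : V → Bool) (L : Fm V) :
    (fun y : V → Bool => bf L (fun v => if v ∈ H then z v else y v)) =
      bf (Fm.setc H (H.filter (fun v => z v = true)) L) := by
  funext y
  have h1 := Fm.ev_setc H (H.filter (fun v => z v = true))
    (fun v => if v ∈ H then z v else y v) (by
      intro v hv
      simp [hv]) L
  have h2 : (Fm.setc H (H.filter (fun v => z v = true)) L).ev y =
      (Fm.setc H (H.filter (fun v => z v = true)) L).ev (fun v => if v ∈ H then z v else y v) := by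
    refine Fm.ev_congr _ fun v hv => ?_
    rw [Fm.oc_setc] at hv
    by_cases h3 : v ∈ H
    · rw [if_pos h3] at hv
      exact absurd hv (by omega)
    · simp only [if_neg h3]
  simp only [bf]
  rw [h2, h1]

/-- **Formulas of linear size**; the variables in `H` may occur arbitrarily often. -/
theorem heavy_tail (K : ℕ) {c : ℝ} (hc : 0 < c) :
    ∃ q : ℕ, 0 < q ∧ ∃ δ : ℝ, 0 < δ ∧ ∃ C : ℝ, 0 < C ∧ ∃ n0 : ℕ,
      ∀ (V E : Type) [Fintype V] [Fintype E] (_ : V ≃ E × Fin q), n0 ≤ Fintype.card E →
        ∀ L : Fm V, L.nsp = 0 → ∀ H : Finset V, (H.card : ℝ) ≤ c * Fintype.card V →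
        ∑ v ∈ univ \ H, L.oc v ≤ K * Fintype.card V →
        Wt (3 * c * Fintype.card V) (bf L) ≤ C * Real.exp (-δ * Fintype.card E) := by
  obtain ⟨t, ht⟩ := exists_nat_ge ((K : ℝ) / c)
  obtain ⟨q, hq, δ, hδ, C, hC, n0, hmain⟩ := light_tail t hc
  refine ⟨q, hq, δ, hδ, C, hC, n0, ?_⟩
  intro V E _ _ e hE L hL H hH hsum
  set G : Finset V := (univ \ H).filter (fun v => t < L.oc v) with hG
  have hV : (Fintype.card V : ℝ) = q * Fintype.card E := by
    rw [Fintype.card_congr e, Fintype.card_prod, Fintype.card_fin]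
    push_cast
    ring
  have hG1 : (G.card : ℝ) ≤ c * Fintype.card V := by
    have h1 : G.card * (t + 1) ≤ K * Fintype.card V := by
      refine le_trans ?_ hsum
      calc G.card * (t + 1) = ∑ v ∈ G, (t + 1) := by simp
        _ ≤ ∑ v ∈ G, L.oc v := Finset.sum_le_sum fun v hv => (mem_filter.mp hv).2
        _ ≤ _ := Finset.sum_le_sum_of_subset_of_nonneg (Finset.filter_subset _ _)
            (fun _ _ _ => Nat.zero_le _)
    have h2 : (G.card : ℝ) * (t + 1) ≤ K * Fintype.card V := by exact_mod_cast h1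
    rw [div_le_iff₀ hc] at ht
    have h3 : (G.card : ℝ) * (t + 1) ≤ (c * Fintype.card V) * (t + 1) := by
      have h4 : (0 : ℝ) ≤ Fintype.card V := Nat.cast_nonneg _
      nlinarith
    exact le_of_mul_le_mul_right h3 (by positivity)
  have hHG : ((H ∪ G).card : ℝ) ≤ 2 * c * Fintype.card V := by
    have h1 : ((H ∪ G).card : ℝ) ≤ H.card + G.card := by
      exact_mod_cast Finset.card_union_le H G
    linarith
  have h1 : Wt (c * Fintype.card V + (H ∪ G).card) (bf L) ≤
      C * Real.exp (-δ * Fintype.card E) := by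
    refine Wt_fix_le (H ∪ G) (bf L) _ _ fun z => ?_
    rw [bf_setc, Wt_ren e, hV]
    refine hmain E hE _ (by rw [nsp_ren, Fm.nsp_setc, hL]) fun v => ?_
    rw [oc_ren, Fm.oc_setc]
    split
    · exact Nat.zero_le _
    · rename_i hv
      rw [mem_union, not_or, hG, mem_filter, mem_sdiff] at hv
      by_contra hcon
      push Not at hcon
      exact hv.2 ⟨⟨mem_univ _, hv.1⟩, hcon⟩
  refine le_trans (Wt_mono ?_ _) h1
  linarith

end Pool.Agent.T9h90.FT
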